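import Mathlib

/-!
# MP_ffd330_lc: reduction of Q1 to low degrees and to lower cones (library H23R, helper23): definitions
-/

namespace Pool.Agent.Lib.H23R

open Nat.Partrec (Code)
open Encodable Denumerable

open Classical in
/-- the characteristic function of `A` -/
noncomputable def Ch (A : Set ℕ) : ℕ →. ℕ := fun n => Part.some (if n ∈ A then (1 : ℕ) else 0)

/-- computably enumerable -/
def CE (A : Set ℕ) : Prop := ∃ p : ℕ →. ℕ, Nat.Partrec p ∧ ∀ n, n ∈ A ↔ (p n).Dom

/-- Turing reducible -/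
def Le (A B : Set ℕ) : Prop := TuringReducible (Ch A) (Ch B)

/-- not computable -/
def NonComp (A : Set ℕ) : Prop := ¬ ComputablePred fun n => n ∈ A

/-- high (in the form of domination, Martin) -/
def High (H : Set ℕ) : Prop := ∃ f : ℕ → ℕ, TuringReducible (fun n => Part.some (f n)) (Ch H) ∧
  ∀ g : ℕ → ℕ, Computable g → ∃ N : ℕ, ∀ n, N ≤ n → g n ≤ f n

/-- `Φ` acts as an automorphism of the lattice of the c.e. sets -/
structure Auto (Φ : Set ℕ → Set ℕ) : Prop where
  maps : ∀ X, CE X → CE (Φ X)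
  surj : ∀ Y, CE Y → ∃ X, CE X ∧ Φ X = Y
  mono : ∀ X Y, CE X → CE Y → (X ⊆ Y ↔ Φ X ⊆ Φ Y)

/-- the halting problem -/
def Halt : Set ℕ := {n | (Code.eval (ofNat Code n.unpair.1) n.unpair.2).Dom}

/-- low: every set that is c.e. in `A` (in particular the jump of `A`) is computable in the halting problem -/
def Low (A : Set ℕ) : Prop := ∀ g : ℕ →. ℕ, TuringReducible g (Ch A) → Le {n | (g n).Dom} Halt

/-- the conclusion of Q1 for the degree of `W` -/
def Good (W : Set ℕ) : Prop := ∃ A, CE A ∧ Le A W ∧ Le W A ∧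
  ∀ H, CE H → High H → ∃ Φ, Auto Φ ∧ Le (Φ A) H ∧ Le H (Φ A)

/-- the conclusion of Q1 with `computable in H` instead of `of the degree of H` -/
def Weak (W : Set ℕ) : Prop := ∃ A, CE A ∧ Le A W ∧ Le W A ∧
  ∀ H, CE H → High H → ∃ Φ, Auto Φ ∧ Le (Φ A) H

/-! ### functionals -/

/-- the first `k` values of `x` -/
def seg (x : ℕ → Bool) (k : ℕ) : List Bool := (List.range k).map x

/-- the computation number `c` of the functional `e` at the argument `y` with the oracle `x`: `c` codes the length of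
the part of the oracle that may be used and the number of steps -/
def Q (e y : ℕ) (x : ℕ → Bool) (c : ℕ) : Option ℕ :=
  Code.evaln c.unpair.2 (ofNat Code e) (encode (seg x c.unpair.1, y))

/-- the join (even and odd numbers) -/
def join (A B : Set ℕ) : Set ℕ := {n | (n % 2 = 0 ∧ n / 2 ∈ A) ∨ (n % 2 = 1 ∧ n / 2 ∈ B)}

end Pool.Agent.Lib.H23R
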