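import Mathlib
import Pool.Agent.Lib.H23R.Defs

/-!
# MP_ffd330_lc (library H23R): the injury argument for Sacks' splitting theorem (no computability here)
-/

namespace Pool.Agent.Lib.H23R

open Filter
open scoped Classical

/-- `c` is the least successful computation -/
def isW (e y : ℕ) (x : ℕ → Bool) (c : ℕ) : Prop := (Q e y x c).isSome = true ∧ ∀ c' < c, Q e y x c' = none

theorem seg_congr {x x' : ℕ → Bool} {k : ℕ} (h : ∀ n < k, x n = x' n) : seg x k = seg x' k :=
  List.map_congr_left fun n hn => h n (List.mem_range.1 hn)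

theorem Q_congr {e y : ℕ} {x x' : ℕ → Bool} {c : ℕ} (h : ∀ n < c, x n = x' n) : Q e y x c = Q e y x' c := by
  unfold Q
  rw [seg_congr fun n hn => h n (lt_of_lt_of_le hn (Nat.unpair_left_le c))]

theorem isW_congr {e y : ℕ} {x x' : ℕ → Bool} {c : ℕ} (h : ∀ n < c, x n = x' n) (hw : isW e y x c) : isW e y x' c :=
  ⟨by rw [← Q_congr h]; exact hw.1, fun c' hc' => by
    rw [← Q_congr fun n hn => h n (hn.trans hc')]
    exact hw.2 c' hc'⟩

theorem isW_unique {e y : ℕ} {x : ℕ → Bool} {c c' : ℕ} (h : isW e y x c) (h' : isW e y x c') : c = c' := by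
  rcases lt_trichotomy c c' with h1 | h1 | h1
  · have h2 := h'.2 c h1
    have h3 := h.1
    rw [h2] at h3
    simp at h3
  · exact h1
  · have h2 := h.2 c' h1
    have h3 := h'.1
    rw [h2] at h3
    simp at h3

theorem exists_isW {e y : ℕ} {x : ℕ → Bool} {c : ℕ} (h : (Q e y x c).isSome = true) : ∃ c', isW e y x c' := by
  classical
  have hex : ∃ c, (Q e y x c).isSome = true := ⟨c, h⟩
  refine ⟨Nat.find hex, Nat.find_spec hex, fun c' hc' => ?_⟩
  have h1 := Nat.find_min hex hc'
  simpa using h1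

section
variable (ent : ℕ → Option ℕ) (side : ℕ → Bool) (tgt : ℕ → ℕ → Option ℕ)

/-- the part of the side `i` -/
def Part (i : Bool) : Set ℕ := {n | ∃ t, ent t = some n ∧ side t = i}

/-- the part of the side `i` at the stage `s` -/
noncomputable def xs (i : Bool) (s n : ℕ) : Bool := decide (∃ t < s, ent t = some n ∧ side t = i)

noncomputable def xl (i : Bool) (n : ℕ) : Bool := decide (∃ t, ent t = some n ∧ side t = i)

/-- enumerated before the stage `s` -/
def Ws (s y : ℕ) : Prop := ∃ t < s, ent t = some y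

/-- agreement at the argument `y` at the stage `s` of the functional number `e.unpair.2` with the set number `e.unpair.1` -/
def Agr (i : Bool) (e y s : ℕ) : Prop :=
  ∃ c < s, isW e.unpair.2 y (xs ent side i s) c ∧
    Q e.unpair.2 y (xs ent side i s) c = some (if Ws (tgt e.unpair.1) s y then 1 else 0)

/-- `w` is restrained from the side `i` for the functional `e` at the stage `s` -/
def Rs (i : Bool) (e s w : ℕ) : Prop :=
  ∃ y < s, (∀ y' < y, Agr ent side tgt i e y' s) ∧ ∃ c < s, isW e.unpair.2 y (xs ent side i s) c ∧ w < c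

/-- no injury of `(i, e)` from the stage `s₁` on -/
def NI (i : Bool) (e s₁ : ℕ) : Prop := ∀ s, s₁ ≤ s → ∀ w, ent s = some w → Rs ent side tgt i e s w → side s ≠ i

/-- the functional `e.unpair.2` with the part `i` as oracle computes the set number `e.unpair.1` -/
def All (i : Bool) (e : ℕ) : Prop :=
  ∀ y, ∃ c, isW e.unpair.2 y (xl ent side i) c ∧
    Q e.unpair.2 y (xl ent side i) c = some (if ∃ t, tgt e.unpair.1 t = some y then 1 else 0)

variable {ent side tgt}

theorem xs_eventually (i : Bool) (n : ℕ) : ∀ᶠ s in atTop, xs ent side i s n = xl ent side i n := by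
  by_cases h : ∃ t, ent t = some n ∧ side t = i
  · obtain ⟨t, ht⟩ := h
    filter_upwards [eventually_gt_atTop t] with s hs
    have h1 : xs ent side i s n = true := decide_eq_true ⟨t, hs, ht⟩
    have h2 : xl ent side i n = true := decide_eq_true ⟨t, ht⟩
    rw [h1, h2]
  · refine Eventually.of_forall fun s => ?_
    have h1 : xs ent side i s n = false := decide_eq_false fun ⟨t, _, ht⟩ => h ⟨t, ht⟩
    have h2 : xl ent side i n = false := decide_eq_false h
    rw [h1, h2]

theorem xs_eventually_lt (i : Bool) (c : ℕ) : ∀ᶠ s in atTop, ∀ n < c, xs ent side i s n = xl ent side i n := by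
  have := (Set.finite_Iio c).eventually_all (l := atTop) (p := fun n s => xs ent side i s n = xl ent side i n)
  exact this.2 fun n _ => xs_eventually i n

theorem Ws_eventually (y : ℕ) : ∀ᶠ s in atTop, (Ws ent s y ↔ ∃ t, ent t = some y) := by
  by_cases h : ∃ t, ent t = some y
  · obtain ⟨t, ht⟩ := h
    filter_upwards [eventually_gt_atTop t] with s hs
    exact ⟨fun _ => ⟨t, ht⟩, fun _ => ⟨t, hs, ht⟩⟩
  · exact Eventually.of_forall fun s => ⟨fun ⟨t, _, ht⟩ => ⟨t, ht⟩, fun h' => absurd h' h⟩

theorem isW_eventually {i : Bool} {e y c : ℕ} (h : isW e y (xl ent side i) c) :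
    ∀ᶠ s in atTop, c < s ∧ isW e y (xs ent side i s) c ∧ Q e y (xs ent side i s) c = Q e y (xl ent side i) c := by
  filter_upwards [xs_eventually_lt (ent := ent) (side := side) i c, eventually_gt_atTop c] with s h1 h2
  exact ⟨h2, isW_congr (fun n hn => (h1 n hn).symm) h, Q_congr h1⟩

/-- preservation of a computation -/
theorem preserve {i : Bool} {e s₁ : ℕ} (hni : NI ent side tgt i e s₁) {y s c : ℕ} (hs : s₁ ≤ s) (hy : y < s) (hc : c < s)
    (hw : isW e.unpair.2 y (xs ent side i s) c) (hag : ∀ t, s ≤ t → ∀ y' < y, Agr ent side tgt i e y' t) :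
    ∀ t, s ≤ t → ∀ n < c, xs ent side i t n = xs ent side i s n := by
  intro t ht
  induction t, ht using Nat.le_induction with
  | base => intro n _; rfl
  | succ t ht ih =>
    intro n hn
    rw [← ih n hn]
    by_contra hcon
    have h1 : ent t = some n ∧ side t = i := by
      by_contra h2
      apply hcon
      unfold xs
      apply decide_eq_decide.2
      constructor
      · rintro ⟨u, hu, h3⟩
        rcases Nat.lt_succ_iff_lt_or_eq.1 hu with h4 | h4
        · exact ⟨u, h4, h3⟩
        · rw [h4] at h3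
          exact absurd h3 h2
      · rintro ⟨u, hu, h3⟩
        exact ⟨u, by omega, h3⟩
    refine hni t (hs.trans ht) n h1.1 ⟨y, by omega, hag t ht, c, by omega, ?_, hn⟩ h1.2
    exact isW_congr (fun m hm => (ih m hm).symm) hw

theorem preserve_lim {i : Bool} {s c : ℕ} (h : ∀ t, s ≤ t → ∀ n < c, xs ent side i t n = xs ent side i s n) :
    ∀ n < c, xl ent side i n = xs ent side i s n := by
  intro n hn
  obtain ⟨t, h1, h2⟩ := ((xs_eventually (ent := ent) (side := side) i n).and (eventually_ge_atTop s)).exists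
  rw [← h1, h t h2 n hn]

theorem if_inj {p q : Prop} [Decidable p] [Decidable q] (h : (if p then (1 : ℕ) else 0) = if q then 1 else 0) : p ↔ q := by
  by_cases hp : p <;> by_cases hq : q <;> simp_all

/-- if the functional computes the set, agreement is final -/
theorem stable {i : Bool} {e s₁ : ℕ} (hni : NI ent side tgt i e s₁) (hall : All ent side tgt i e) : ∀ y s, s₁ ≤ s → y < s →
    (∀ y' ≤ y, Agr ent side tgt i e y' s) → ∀ t, s ≤ t → Agr ent side tgt i e y t ∧ (Ws (tgt e.unpair.1) s y ↔ ∃ t, tgt e.unpair.1 t = some y) := by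
  intro y
  induction y using Nat.strong_induction_on with
  | _ y ih =>
    intro s hs hys hag
    obtain ⟨c, hc, hw, hq⟩ := hag y le_rfl
    have h1 : ∀ t, s ≤ t → ∀ y' < y, Agr ent side tgt i e y' t := fun t ht y' hy' =>
      (ih y' hy' s hs (by omega) (fun y'' hy'' => hag y'' (by omega)) t ht).1
    have h2 := preserve hni hs hys hc hw h1
    have h3 := preserve_lim h2
    have h4 : isW e.unpair.2 y (xl ent side i) c := isW_congr (fun n hn => (h3 n hn).symm) hw
    obtain ⟨c', hw', hq'⟩ := hall y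
    obtain rfl := isW_unique h4 hw'
    have h5 : Q e.unpair.2 y (xl ent side i) c = some (if Ws (tgt e.unpair.1) s y then 1 else 0) := by rw [Q_congr h3, hq]
    rw [h5] at hq'
    have h6 := if_inj (Option.some.inj hq')
    intro t ht
    refine ⟨⟨c, by omega, isW_congr (fun n hn => (h2 t ht n hn).symm) hw, ?_⟩, h6⟩
    rw [Q_congr (h2 t ht), hq]
    have h7 : Ws (tgt e.unpair.1) s y ↔ Ws (tgt e.unpair.1) t y := by
      constructor
      · rintro ⟨u, hu, h8⟩
        exact ⟨u, by omega, h8⟩
      · rintro ⟨u, _, h8⟩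
        exact h6.2 ⟨u, h8⟩
    simp only [h7]

/-- if the functional computes the set, there is agreement up to every `y` -/
theorem exists_agr {i : Bool} {e : ℕ} (hall : All ent side tgt i e) (y : ℕ) :
    ∀ᶠ s in atTop, ∀ y' ≤ y, Agr ent side tgt i e y' s := by
  have := (Set.finite_Iic y).eventually_all (l := atTop) (p := fun y' s => Agr ent side tgt i e y' s)
  refine this.2 fun y' _ => ?_
  obtain ⟨c, hw, hq⟩ := hall y'
  filter_upwards [isW_eventually hw, Ws_eventually (ent := tgt e.unpair.1) y'] with s h1 h2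
  refine ⟨c, h1.1, h1.2.1, ?_⟩
  rw [h1.2.2, hq]
  simp only [h2]

/-- convergence at the argument `0` -/
theorem conv_lim {i : Bool} {e s₁ : ℕ} (hni : NI ent side tgt i e s₁) :
    ∀ᶠ s in atTop, ((∃ c < s, isW e.unpair.2 0 (xs ent side i s) c) ↔ ∃ c, isW e.unpair.2 0 (xl ent side i) c) := by
  by_cases h : ∃ c, isW e.unpair.2 0 (xl ent side i) c
  · obtain ⟨c, hc⟩ := h
    filter_upwards [isW_eventually hc] with s h1
    exact ⟨fun _ => ⟨c, hc⟩, fun _ => ⟨c, h1.1, h1.2.1⟩⟩
  · filter_upwards [eventually_ge_atTop (s₁ + 1)] with s hs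
    refine ⟨fun h1 => ?_, fun h1 => absurd h1 h⟩
    obtain ⟨c, hc, hw⟩ := h1
    have h2 := preserve_lim (preserve hni (by omega) (by omega : 0 < s) hc hw fun t _ y' hy' => by omega)
    exact ⟨c, isW_congr (fun n hn => (h2 n hn).symm) hw⟩

/-- if the functional does not compute `W`, the restraint is bounded -/
theorem bounded {i : Bool} {e s₁ : ℕ} (hni : NI ent side tgt i e s₁) (hall : ¬ All ent side tgt i e) :
    ∃ B, ∀ s w, Rs ent side tgt i e s w → w < B := by
  classical
  unfold All at hall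
  rw [not_forall] at hall
  obtain ⟨p, hp, hmin⟩ : ∃ p, (¬ ∃ c, isW e.unpair.2 p (xl ent side i) c ∧ Q e.unpair.2 p (xl ent side i) c = some (if ∃ t, tgt e.unpair.1 t = some p then 1 else 0)) ∧
      ∀ y < p, ∃ c, isW e.unpair.2 y (xl ent side i) c ∧ Q e.unpair.2 y (xl ent side i) c = some (if ∃ t, tgt e.unpair.1 t = some y then 1 else 0) := by
    refine ⟨Nat.find hall, Nat.find_spec hall, fun y hy => ?_⟩
    have := Nat.find_min hall hy
    rwa [not_not] at this
  choose cc hcc using hmin
  -- the settled stage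
  have hev1 : ∀ᶠ s in atTop, ∀ y, ∀ hy : y < p, cc y hy < s ∧ isW e.unpair.2 y (xs ent side i s) (cc y hy) ∧
      Q e.unpair.2 y (xs ent side i s) (cc y hy) = Q e.unpair.2 y (xl ent side i) (cc y hy) ∧ (Ws (tgt e.unpair.1) s y ↔ ∃ t, tgt e.unpair.1 t = some y) := by
    have := (Set.finite_Iio p).eventually_all (l := atTop) (p := fun y s => ∀ hy : y < p, cc y hy < s ∧ isW e.unpair.2 y (xs ent side i s) (cc y hy) ∧
      Q e.unpair.2 y (xs ent side i s) (cc y hy) = Q e.unpair.2 y (xl ent side i) (cc y hy) ∧ (Ws (tgt e.unpair.1) s y ↔ ∃ t, tgt e.unpair.1 t = some y))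
    refine (this.2 fun y hy => ?_).mono fun s hs y hy => hs y hy hy
    filter_upwards [isW_eventually (hcc y hy).1, Ws_eventually (ent := tgt e.unpair.1) y] with s h1 h2 _
    exact ⟨h1.1, h1.2.1, h1.2.2, h2⟩
  obtain ⟨s₂, hs₂⟩ := eventually_atTop.1 (hev1.and ((Ws_eventually (ent := tgt e.unpair.1) p).and (eventually_ge_atTop (s₁ + p + 1))))
  have hag : ∀ s, s₂ ≤ s → ∀ y < p, Agr ent side tgt i e y s := by
    intro s hs y hy
    obtain ⟨h1, h2, h3, h4⟩ := (hs₂ s hs).1 y hy
    refine ⟨_, h1, h2, ?_⟩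
    rw [h3, (hcc y hy).2]
    simp only [h4]
  -- the bound for the arguments below `p`
  obtain ⟨C, hC⟩ : ∃ C, ∀ y, ∀ hy : y < p, cc y hy ≤ C := by
    refine ⟨s₂, fun y hy => ((hs₂ s₂ le_rfl).1 y hy).1.le⟩
  have hlow : ∀ s, s₂ ≤ s → ∀ y < p, ∀ c, isW e.unpair.2 y (xs ent side i s) c → c ≤ C := by
    intro s hs y hy c hc
    rw [isW_unique hc ((hs₂ s hs).1 y hy).2.1]
    exact hC y hy
  by_cases hB : ∃ s₃, s₂ ≤ s₃ ∧ ∃ c < s₃, isW e.unpair.2 p (xs ent side i s₃) c
  · obtain ⟨s₃, hs₃, c, hc, hw⟩ := hB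
    have h0 := (hs₂ s₃ hs₃).2.2
    have h1 := preserve hni (by omega) (by omega : p < s₃) hc hw fun t ht y' hy' => hag t (hs₃.trans ht) y' hy'
    have h2 := preserve_lim h1
    have h3 : isW e.unpair.2 p (xl ent side i) c := isW_congr (fun n hn => (h2 n hn).symm) hw
    have hna : ∀ t, s₃ ≤ t → ¬ Agr ent side tgt i e p t := by
      rintro t ht ⟨c', hc', hw', hq'⟩
      have h4 : isW e.unpair.2 p (xs ent side i t) c := isW_congr (fun n hn => (h1 t ht n hn).symm) hw
      obtain rfl := isW_unique h4 hw'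
      refine hp ⟨c, h3, ?_⟩
      rw [Q_congr h2, ← Q_congr (h1 t ht), hq']
      simp only [(hs₂ t (hs₃.trans ht)).2.1]
    refine ⟨C + c + s₃ + 1, fun s w hR => ?_⟩
    obtain ⟨y, hy, hya, c', hc', hw', hwc⟩ := hR
    rcases lt_or_ge s s₃ with h4 | h4
    · omega
    · rcases lt_trichotomy y p with h5 | h5 | h5
      · have := hlow s (hs₃.trans h4) y h5 c' hw'
        omega
      · rw [h5] at hw'
        have h6 : isW e.unpair.2 p (xs ent side i s) c := isW_congr (fun n hn => (h1 s h4 n hn).symm) hw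
        have := isW_unique h6 hw'
        omega
      · exact absurd (hya p h5) (hna s h4)
  · push Not at hB
    refine ⟨C + s₂ + 1, fun s w hR => ?_⟩
    obtain ⟨y, hy, hya, c', hc', hw', hwc⟩ := hR
    rcases lt_or_ge s s₂ with h4 | h4
    · omega
    · rcases lt_trichotomy y p with h5 | h5 | h5
      · have := hlow s h4 y h5 c' hw'
        omega
      · rw [h5] at hw'
        exact absurd hw' (hB s h4 c' hc')
      · obtain ⟨c'', h6, h7, -⟩ := hya p h5
        exact absurd h7 (hB s h4 c'' h6)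

/-- small numbers are enumerated early -/
theorem ent_large (hu : ∀ s t n, ent s = some n → ent t = some n → s = t) (M : ℕ) :
    ∃ s₁, ∀ s, s₁ ≤ s → ∀ w, ent s = some w → M ≤ w := by
  induction M with
  | zero => exact ⟨0, fun _ _ w _ => Nat.zero_le w⟩
  | succ M ih =>
    obtain ⟨s₁, h⟩ := ih
    by_cases h1 : ∃ t, ent t = some M
    · obtain ⟨t, ht⟩ := h1
      refine ⟨max s₁ (t + 1), fun s hs w hw => ?_⟩
      have h2 := h s (le_trans (le_max_left _ _) hs) w hw
      rcases h2.eq_or_lt with h3 | h3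
      · rw [← h3] at hw
        have := hu s t M hw ht
        have := le_trans (le_max_right s₁ (t + 1)) hs
        omega
      · exact h3
    · refine ⟨s₁, fun s hs w hw => ?_⟩
      rcases (h s hs w hw).eq_or_lt with h3 | h3
      · rw [← h3] at hw
        exact absurd ⟨s, hw⟩ h1
      · exact h3

/-- the priority argument -/
theorem priority (hu : ∀ s t n, ent s = some n → ent t = some n → s = t)
    (hside : ∀ s w r, ent s = some w → r < s → Rs ent side tgt r.bodd (r / 2) s w → side s = r.bodd →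
      ∃ r' < r, Rs ent side tgt r'.bodd (r' / 2) s w)
    (hcomp : ∀ i e s₁, NI ent side tgt i e s₁ → ¬ All ent side tgt i e) :
    ∀ r : ℕ, (∃ B, ∀ s w, Rs ent side tgt r.bodd (r / 2) s w → w < B) ∧ ∃ s₁, NI ent side tgt r.bodd (r / 2) s₁ := by
  intro r
  induction r using Nat.strong_induction_on with
  | _ r ih =>
    have h1 : ∃ M, ∀ r' < r, ∀ s w, Rs ent side tgt r'.bodd (r' / 2) s w → w < M := by
      have h2 : ∀ r', ∃ B, r' < r → ∀ s w, Rs ent side tgt r'.bodd (r' / 2) s w → w < B := by
        intro r'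
        by_cases h3 : r' < r
        · obtain ⟨B, hB⟩ := (ih r' h3).1
          exact ⟨B, fun _ => hB⟩
        · exact ⟨0, fun h4 => absurd h4 h3⟩
      choose B hB using h2
      refine ⟨∑ r' ∈ Finset.range r, (B r' + 1), fun r' hr' s w hR => ?_⟩
      have h3 := hB r' hr' s w hR
      have h4 : B r' + 1 ≤ ∑ r' ∈ Finset.range r, (B r' + 1) :=
        Finset.single_le_sum (f := fun r' => B r' + 1) (fun _ _ => Nat.zero_le _) (Finset.mem_range.2 hr')
      omega
    obtain ⟨M, hM⟩ := h1
    obtain ⟨s₁, hs₁⟩ := ent_large hu M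
    have hni : NI ent side tgt r.bodd (r / 2) (s₁ + r + 1) := by
      intro s hs w hw hR hsd
      obtain ⟨r', hr', hR'⟩ := hside s w r hw (by omega) hR hsd
      have h3 := hM r' hr' s w hR'
      have h4 := hs₁ s (by omega) w hw
      omega
    exact ⟨bounded hni (hcomp _ _ _ hni), _, hni⟩

end

end Pool.Agent.Lib.H23R
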