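import Mathlib
import Pool.Agent.Lib.H23R.Inj

/-!
# MP_ffd330_lc (library H23R): the construction for Sacks' splitting theorem is primitive recursive
-/

namespace Pool.Agent.Lib.H23R

open Nat.Partrec (Code)
open Encodable Denumerable
open scoped Classical

theorem bex {α : Type*} [Primcodable α] {p : α → ℕ → Prop} {f : α → ℕ} (hf : Primrec f) (hp : PrimrecRel p) :
    PrimrecPred fun a => ∃ x < f a, p a x :=
  ((PrimrecRel.exists_mem_list (R := fun x a => p a x) (hp.comp Primrec.snd Primrec.fst)).comp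
    (Primrec.list_range.comp hf) Primrec.id).of_eq (by simp)

theorem ball {α : Type*} [Primcodable α] {p : α → ℕ → Prop} {f : α → ℕ} (hf : Primrec f) (hp : PrimrecRel p) :
    PrimrecPred fun a => ∀ x < f a, p a x :=
  ((PrimrecRel.forall_mem_list (R := fun x a => p a x) (hp.comp Primrec.snd Primrec.fst)).comp
    (Primrec.list_range.comp hf) Primrec.id).of_eq (by simp)

theorem seg_prim {α : Type*} [Primcodable α] {x : α → ℕ → Bool} (hx : Primrec₂ x) {k : α → ℕ} (hk : Primrec k) :
    Primrec fun a => seg (x a) (k a) :=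
  Primrec.list_map (Primrec.list_range.comp hk) hx

theorem Q_prim {α : Type*} [Primcodable α] {x : α → ℕ → Bool} (hx : Primrec₂ x) {e y c : α → ℕ} (he : Primrec e)
    (hy : Primrec y) (hc : Primrec c) : Primrec fun a => Q (e a) (y a) (x a) (c a) := by
  unfold Q
  have h1 := seg_prim hx (Primrec.fst.comp (Primrec.unpair.comp hc))
  exact Code.primrec_evaln.comp (((Primrec.snd.comp (Primrec.unpair.comp hc)).pair ((Primrec.ofNat Code).comp he)).pair
    (Primrec.encode.comp (h1.pair hy)))

theorem isW_prim {α : Type*} [Primcodable α] {x : α → ℕ → Bool} (hx : Primrec₂ x) {e y c : α → ℕ} (he : Primrec e)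
    (hy : Primrec y) (hc : Primrec c) : PrimrecPred fun a => isW (e a) (y a) (x a) (c a) := by
  unfold isW
  refine PrimrecPred.and (Primrec.eq.comp (Primrec.option_isSome.comp (Q_prim hx he hy hc)) (Primrec.const true)) ?_
  refine ball hc ?_
  have hx' : Primrec₂ fun (a : α × ℕ) => x a.1 := hx.comp (Primrec.fst.comp Primrec.fst) Primrec.snd
  exact Primrec.eq.comp (Q_prim hx' (he.comp Primrec.fst) (hy.comp Primrec.fst) Primrec.snd) (Primrec.const none)

/-- agreement with an arbitrary oracle and an arbitrary set -/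
def AgrX (x : ℕ → Bool) (W : ℕ → Prop) (e y s : ℕ) : Prop :=
  ∃ c < s, isW e y x c ∧ Q e y x c = some (if W y then 1 else 0)

/-- restraint with an arbitrary oracle and an arbitrary set -/
def RsX (x : ℕ → Bool) (W : ℕ → Prop) (e s w : ℕ) : Prop :=
  ∃ y < s, (∀ y' < y, AgrX x W e y' s) ∧ ∃ c < s, isW e y x c ∧ w < c

theorem AgrX_prim {α : Type*} [Primcodable α] {x : α → ℕ → Bool} (hx : Primrec₂ x) {W : α → ℕ → Prop} (hW : PrimrecRel W)
    {e y s : α → ℕ} (he : Primrec e) (hy : Primrec y) (hs : Primrec s) :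
    PrimrecPred fun a => AgrX (x a) (W a) (e a) (y a) (s a) := by
  unfold AgrX
  refine bex hs ?_
  have hx' : Primrec₂ fun (a : α × ℕ) => x a.1 := hx.comp (Primrec.fst.comp Primrec.fst) Primrec.snd
  refine PrimrecPred.and (isW_prim hx' (he.comp Primrec.fst) (hy.comp Primrec.fst) Primrec.snd) ?_
  refine Primrec.eq.comp (Q_prim hx' (he.comp Primrec.fst) (hy.comp Primrec.fst) Primrec.snd) ?_
  refine Primrec.option_some.comp ?_
  exact Primrec.ite (hW.comp Primrec.fst (hy.comp Primrec.fst)) (Primrec.const 1) (Primrec.const 0)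

theorem RsX_prim {α : Type*} [Primcodable α] {x : α → ℕ → Bool} (hx : Primrec₂ x) {W : α → ℕ → Prop} (hW : PrimrecRel W)
    {e s w : α → ℕ} (he : Primrec e) (hs : Primrec s) (hw : Primrec w) :
    PrimrecPred fun a => RsX (x a) (W a) (e a) (s a) (w a) := by
  unfold RsX
  refine bex hs ?_
  have hx' : Primrec₂ fun (a : α × ℕ) => x a.1 := hx.comp (Primrec.fst.comp Primrec.fst) Primrec.snd
  refine PrimrecPred.and ?_ ?_
  · refine ball Primrec.snd ?_
    have hx'' : Primrec₂ fun (a : (α × ℕ) × ℕ) => x a.1.1 :=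
      hx.comp (Primrec.fst.comp (Primrec.fst.comp Primrec.fst)) Primrec.snd
    have hW' : PrimrecRel fun (a : (α × ℕ) × ℕ) => W a.1.1 :=
      hW.comp (Primrec.fst.comp (Primrec.fst.comp Primrec.fst)) Primrec.snd
    exact AgrX_prim hx'' hW' (he.comp (Primrec.fst.comp Primrec.fst)) Primrec.snd (hs.comp (Primrec.fst.comp Primrec.fst))
  · refine bex (hs.comp Primrec.fst) ?_
    have hx'' : Primrec₂ fun (a : (α × ℕ) × ℕ) => x a.1.1 :=
      hx.comp (Primrec.fst.comp (Primrec.fst.comp Primrec.fst)) Primrec.snd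
    exact PrimrecPred.and (isW_prim hx'' (he.comp (Primrec.fst.comp Primrec.fst)) (Primrec.snd.comp Primrec.fst) Primrec.snd)
      (Primrec.nat_lt.comp (hw.comp (Primrec.fst.comp Primrec.fst)) Primrec.snd)

/-- the part at the stage given by the history `h` -/
noncomputable def xH (ent : ℕ → Option ℕ) (i : Bool) (h : List Bool) (n : ℕ) : Bool :=
  decide (∃ t < h.length, ent t = some n ∧ h[t]? = some i)

theorem xH_prim {ent : ℕ → Option ℕ} (he : Primrec ent) {α : Type*} [Primcodable α] {i : α → Bool} (hi : Primrec i)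
    {h : α → List Bool} (hh : Primrec h) : Primrec₂ fun a => xH ent (i a) (h a) := by
  have : PrimrecPred fun (a : α × ℕ) => ∃ t < (h a.1).length, ent t = some a.2 ∧ (h a.1)[t]? = some (i a.1) := by
    refine bex (Primrec.list_length.comp (hh.comp Primrec.fst)) ?_
    refine PrimrecPred.and (Primrec.eq.comp (he.comp Primrec.snd) (Primrec.option_some.comp (Primrec.snd.comp Primrec.fst))) ?_
    exact Primrec.eq.comp (Primrec.list_getElem?.comp (hh.comp (Primrec.fst.comp Primrec.fst)) Primrec.snd)
      (Primrec.option_some.comp (hi.comp (Primrec.fst.comp Primrec.fst)))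
  exact this.decide

theorem xs_prim {ent : ℕ → Option ℕ} (he : Primrec ent) {side : ℕ → Bool} (hsd : Primrec side) {α : Type*} [Primcodable α]
    {i : α → Bool} (hi : Primrec i) {s : α → ℕ} (hs : Primrec s) : Primrec₂ fun a => xs ent side (i a) (s a) := by
  have : PrimrecPred fun (a : α × ℕ) => ∃ t < s a.1, ent t = some a.2 ∧ side t = i a.1 := by
    refine bex (hs.comp Primrec.fst) ?_
    refine PrimrecPred.and (Primrec.eq.comp (he.comp Primrec.snd) (Primrec.option_some.comp (Primrec.snd.comp Primrec.fst))) ?_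
    exact Primrec.eq.comp (hsd.comp Primrec.snd) (hi.comp (Primrec.fst.comp Primrec.fst))
  exact this.decide

theorem Ws_prim {tgt : ℕ → ℕ → Option ℕ} (ht : Primrec₂ tgt) {α : Type*} [Primcodable α] {k : α → ℕ} (hk : Primrec k)
    {s : α → ℕ} (hs : Primrec s) : PrimrecRel fun a => Ws (tgt (k a)) (s a) := by
  unfold Ws
  refine bex (hs.comp Primrec.fst) ?_
  exact Primrec.eq.comp (ht.comp (hk.comp (Primrec.fst.comp Primrec.fst)) Primrec.snd)
    (Primrec.option_some.comp (Primrec.snd.comp Primrec.fst))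

/-- the requirement number `r` restrains the number that is enumerated at the next stage -/
def PH (ent : ℕ → Option ℕ) (tgt : ℕ → ℕ → Option ℕ) (h : List Bool) (r : ℕ) : Prop :=
  RsX (xH ent r.bodd h) (Ws (tgt (r / 2).unpair.1) h.length) (r / 2).unpair.2 h.length ((ent h.length).getD 0)

/-- the next side: the side opposite to the restraining requirement of the highest priority -/
noncomputable def nx (ent : ℕ → Option ℕ) (tgt : ℕ → ℕ → Option ℕ) (h : List Bool) : Bool :=
  decide (∃ r < h.length, (PH ent tgt h r ∧ ∀ r' < r, ¬ PH ent tgt h r') ∧ r.bodd = false)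

theorem PH_prim {ent : ℕ → Option ℕ} (he : Primrec ent) {tgt : ℕ → ℕ → Option ℕ} (ht : Primrec₂ tgt) : PrimrecRel (PH ent tgt) := by
  unfold PH
  have hl : Primrec fun a : List Bool × ℕ => a.1.length := Primrec.list_length.comp Primrec.fst
  have h2 : Primrec fun a : List Bool × ℕ => (a.2 / 2).unpair :=
    Primrec.unpair.comp (Primrec.nat_div.comp Primrec.snd (Primrec.const 2))
  refine RsX_prim (xH_prim he (Primrec.nat_bodd.comp Primrec.snd) Primrec.fst) (Ws_prim ht (Primrec.fst.comp h2) hl)
    (Primrec.snd.comp h2) hl ?_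
  exact Primrec.option_getD.comp (he.comp hl) (Primrec.const 0)

theorem nx_prim {ent : ℕ → Option ℕ} (he : Primrec ent) {tgt : ℕ → ℕ → Option ℕ} (ht : Primrec₂ tgt) : Primrec (nx ent tgt) := by
  have : PrimrecPred fun h : List Bool => ∃ r < h.length, (PH ent tgt h r ∧ ∀ r' < r, ¬ PH ent tgt h r') ∧ r.bodd = false := by
    refine bex Primrec.list_length ?_
    refine PrimrecPred.and (PrimrecPred.and (PH_prim he ht) ?_) (Primrec.eq.comp (Primrec.nat_bodd.comp Primrec.snd) (Primrec.const false))
    refine ball Primrec.snd ?_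
    exact ((PH_prim he ht).comp (Primrec.fst.comp Primrec.fst) Primrec.snd).not
  exact this.decide

/-- the history -/
noncomputable def hist (ent : ℕ → Option ℕ) (tgt : ℕ → ℕ → Option ℕ) : ℕ → List Bool := Nat.rec [] fun _ ih => ih ++ [nx ent tgt ih]

theorem hist_prim {ent : ℕ → Option ℕ} (he : Primrec ent) {tgt : ℕ → ℕ → Option ℕ} (ht : Primrec₂ tgt) : Primrec (hist ent tgt) :=
  Primrec.nat_rec₁ [] (Primrec.list_concat.comp Primrec.snd ((nx_prim he ht).comp Primrec.snd))

theorem hist_succ (ent : ℕ → Option ℕ) (tgt : ℕ → ℕ → Option ℕ) (s : ℕ) : hist ent tgt (s + 1) = hist ent tgt s ++ [nx ent tgt (hist ent tgt s)] := rfl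

theorem hist_length (ent : ℕ → Option ℕ) (tgt : ℕ → ℕ → Option ℕ) (s : ℕ) : (hist ent tgt s).length = s := by
  induction s with
  | zero => rfl
  | succ s ih => rw [hist_succ, List.length_append, ih]; rfl

theorem hist_get (ent : ℕ → Option ℕ) (tgt : ℕ → ℕ → Option ℕ) {s t : ℕ} (h : t < s) : (hist ent tgt s)[t]? = some (nx ent tgt (hist ent tgt t)) := by
  induction s with
  | zero => omega
  | succ s ih =>
    rw [hist_succ]
    rcases Nat.lt_succ_iff_lt_or_eq.1 h with h1 | h1
    · rw [List.getElem?_append_left (by rw [hist_length]; exact h1), ih h1]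
    · rw [h1, List.getElem?_append_right (by rw [hist_length]), hist_length]
      simp

/-- the construction -/
theorem construction {ent : ℕ → Option ℕ} (he : Primrec ent) {tgt : ℕ → ℕ → Option ℕ} (ht : Primrec₂ tgt) : ∃ side : ℕ → Bool, Primrec side ∧
    ∀ s w r, ent s = some w → r < s → Rs ent side tgt r.bodd (r / 2) s w → side s = r.bodd →
      ∃ r' < r, Rs ent side tgt r'.bodd (r' / 2) s w := by
  refine ⟨fun s => nx ent tgt (hist ent tgt s), (nx_prim he ht).comp (hist_prim he ht), ?_⟩
  have hxs : ∀ i s, xs ent (fun s => nx ent tgt (hist ent tgt s)) i s = xH ent i (hist ent tgt s) := by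
    intro i s
    funext n
    unfold xs xH
    apply decide_eq_decide.2
    rw [hist_length]
    refine exists_congr fun t => and_congr_right fun ht => and_congr_right fun _ => ?_
    rw [hist_get ent tgt ht]
    simp
  have hRs : ∀ s w r, ent s = some w → (Rs ent (fun s => nx ent tgt (hist ent tgt s)) tgt r.bodd (r / 2) s w ↔ PH ent tgt (hist ent tgt s) r) := by
    intro s w r hw
    unfold PH
    rw [hist_length, hw]
    have h1 : RsX (xs ent (fun s => nx ent tgt (hist ent tgt s)) r.bodd s) (Ws (tgt (r / 2).unpair.1) s) (r / 2).unpair.2 s w ↔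
      RsX (xH ent r.bodd (hist ent tgt s)) (Ws (tgt (r / 2).unpair.1) s) (r / 2).unpair.2 s w := by rw [hxs]
    exact h1
  intro s w r hw hrs hR hsd
  by_contra hcon
  push Not at hcon
  have h1 : PH ent tgt (hist ent tgt s) r ∧ ∀ r' < r, ¬ PH ent tgt (hist ent tgt s) r' :=
    ⟨(hRs s w r hw).1 hR, fun r' hr' h2 => hcon r' hr' ((hRs s w r' hw).2 h2)⟩
  simp only at hsd
  cases hb : r.bodd with
  | false =>
    rw [hb] at hsd
    unfold nx at hsd
    refine absurd ?_ (of_decide_eq_false hsd)
    exact ⟨r, by rw [hist_length]; exact hrs, h1, hb⟩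
  | true =>
    rw [hb] at hsd
    unfold nx at hsd
    obtain ⟨r₀, hr₀, h2, h3⟩ := of_decide_eq_true hsd
    rcases lt_trichotomy r₀ r with h4 | h4 | h4
    · exact h1.2 r₀ h4 h2.1
    · rw [h4, hb] at h3
      exact absurd h3 (by decide)
    · exact h2.2 r h4 h1.1

end Pool.Agent.Lib.H23R
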