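import Mathlib
import Pool.Agent.Lib.H23R.Defs

/-!
# MP_ffd330_lc (library H23R): automorphisms act separately on the even and the odd numbers. Chunk U4.
-/

namespace Pool.Agent.Lib.H23R

/-- the even part -/
private def u4ev (X : Set ℕ) : Set ℕ := {n | 2 * n ∈ X}

/-- the odd part -/
private def u4od (X : Set ℕ) : Set ℕ := {n | 2 * n + 1 ∈ X}

private theorem u4_ce_comp {X : Set ℕ} (hX : CE X) {f : ℕ → ℕ} (hf : Computable f) :
    CE {n | f n ∈ X} := by
  obtain ⟨p, hp, hpX⟩ := hX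
  refine ⟨fun n => p (f n), ?_, fun n => hpX (f n)⟩
  exact Partrec.nat_iff.mp ((Partrec.nat_iff.mpr hp).comp hf)

private theorem u4_double : Computable fun n : ℕ => 2 * n :=
  (Primrec.nat_mul.comp (Primrec.const 2) Primrec.id).to_comp

private theorem u4_double1 : Computable fun n : ℕ => 2 * n + 1 :=
  (Primrec.succ.comp (Primrec.nat_mul.comp (Primrec.const 2) Primrec.id)).to_comp

private theorem u4_half : Computable fun n : ℕ => n / 2 :=
  (Primrec.nat_div.comp Primrec.id (Primrec.const 2)).to_comp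

private theorem u4_par : Computable fun n : ℕ => decide (n % 2 = 0) := by
  have h : PrimrecPred fun n : ℕ => n % 2 = 0 :=
    Primrec.eq.comp (Primrec.nat_mod.comp Primrec.id (Primrec.const 2)) (Primrec.const 0)
  exact h.decide.to_comp

private theorem u4_join_ce {A B : Set ℕ} (hA : CE A) (hB : CE B) : CE (join A B) := by
  obtain ⟨p, hp, hpA⟩ := hA
  obtain ⟨q, hq, hqB⟩ := hB
  refine ⟨fun n => bif decide (n % 2 = 0) then p (n / 2) else q (n / 2), ?_, ?_⟩
  · exact Partrec.nat_iff.mp (Partrec.cond u4_par ((Partrec.nat_iff.mpr hp).comp u4_half)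
      ((Partrec.nat_iff.mpr hq).comp u4_half))
  · intro n
    rcases Nat.mod_two_eq_zero_or_one n with h | h
    · simp [join, h, hpA]
    · simp [join, h, hqB]

private theorem u4_ev_join (A B : Set ℕ) : u4ev (join A B) = A := by
  ext n
  simp [u4ev, join]

private theorem u4_od_join (A B : Set ℕ) : u4od (join A B) = B := by
  ext n
  have h2 : (2 * n + 1) / 2 = n := by omega
  simp [u4od, join, h2]

private theorem u4_join_parts (Y : Set ℕ) : join (u4ev Y) (u4od Y) = Y := by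
  ext n
  rcases Nat.mod_two_eq_zero_or_one n with h | h
  · have h1 : 2 * (n / 2) = n := by omega
    simp [u4ev, u4od, join, h, h1]
  · have h1 : 2 * (n / 2) + 1 = n := by omega
    simp [u4ev, u4od, join, h, h1]

private theorem u4_join_sub {A B A' B' : Set ℕ} : join A B ⊆ join A' B' ↔ A ⊆ A' ∧ B ⊆ B' := by
  constructor
  · intro h
    constructor
    · have h1 : u4ev (join A B) ⊆ u4ev (join A' B') := fun n hn => h hn
      rwa [u4_ev_join, u4_ev_join] at h1
    · have h1 : u4od (join A B) ⊆ u4od (join A' B') := fun n hn => h hn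
      rwa [u4_od_join, u4_od_join] at h1
  · rintro ⟨h1, h2⟩ n hn
    rcases hn with ⟨h3, h4⟩ | ⟨h3, h4⟩
    · exact Or.inl ⟨h3, h1 h4⟩
    · exact Or.inr ⟨h3, h2 h4⟩

/-- automorphisms act separately on the even and the odd numbers -/
theorem join_auto {Φ Ψ : Set ℕ → Set ℕ} (hΦ : Auto Φ) (hΨ : Auto Ψ) (A B : Set ℕ) :
    ∃ Θ : Set ℕ → Set ℕ, Auto Θ ∧ Θ (join A B) = join (Φ A) (Ψ B) := by
  refine ⟨fun X => join (Φ (u4ev X)) (Ψ (u4od X)), ⟨?_, ?_, ?_⟩, ?_⟩
  · intro X hX
    exact u4_join_ce (hΦ.maps _ (u4_ce_comp hX u4_double)) (hΨ.maps _ (u4_ce_comp hX u4_double1))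
  · intro Y hY
    obtain ⟨X0, hX0, h0⟩ := hΦ.surj (u4ev Y) (u4_ce_comp hY u4_double)
    obtain ⟨X1, hX1, h1⟩ := hΨ.surj (u4od Y) (u4_ce_comp hY u4_double1)
    refine ⟨join X0 X1, u4_join_ce hX0 hX1, ?_⟩
    show join (Φ (u4ev (join X0 X1))) (Ψ (u4od (join X0 X1))) = Y
    rw [u4_ev_join, u4_od_join, h0, h1, u4_join_parts]
  · intro X Y hX hY
    have e1 : CE (u4ev X) := u4_ce_comp hX u4_double
    have e2 : CE (u4ev Y) := u4_ce_comp hY u4_double
    have o1 : CE (u4od X) := u4_ce_comp hX u4_double1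
    have o2 : CE (u4od Y) := u4_ce_comp hY u4_double1
    show X ⊆ Y ↔ join (Φ (u4ev X)) (Ψ (u4od X)) ⊆ join (Φ (u4ev Y)) (Ψ (u4od Y))
    rw [u4_join_sub, ← hΦ.mono _ _ e1 e2, ← hΨ.mono _ _ o1 o2, ← u4_join_sub, u4_join_parts,
      u4_join_parts]
  · show join (Φ (u4ev (join A B))) (Ψ (u4od (join A B))) = join (Φ A) (Ψ B)
    rw [u4_ev_join, u4_od_join]

end Pool.Agent.Lib.H23R
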