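import Mathlib
import Pool.Agent.Lib.H23R.Defs
import Pool.Agent.Lib.H23R.JoinAuto

/-!
# MP_ffd330_lc (library H23R): joins. Chunk U3.
-/

namespace Pool.Agent.Lib.H23R

open Nat.Partrec (Code)
open Encodable Denumerable

theorem Le.refl (A : Set ℕ) : Le A A := TuringReducible.refl _

theorem Le.trans {A B C : Set ℕ} (h : Le A B) (h' : Le B C) : Le A C := TuringReducible.trans h h'

private theorem u3_comb {O : Set (ℕ →. ℕ)} {f g : ℕ → ℕ} {F : ℕ →. ℕ} (hF : Nat.Partrec F)
    (hf : Nat.RecursiveIn O (fun n => Part.some (f n))) (h : ∀ n, g n ∈ F (Nat.pair n (f n))) :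
    Nat.RecursiveIn O (fun n => Part.some (g n)) := by
  have hid : Nat.RecursiveIn O (fun n => Part.some n) :=
    Nat.RecursiveIn.of_eq (Nat.Primrec.recursiveIn Nat.Primrec.id) fun n => rfl
  have h1 := (hF.recursiveIn (O := O)).comp (hid.pair hf)
  refine Nat.RecursiveIn.of_eq h1 fun n => ?_
  have h2 : (Nat.pair <$> (Part.some n : Part ℕ) <*> Part.some (f n)) = Part.some (Nat.pair n (f n)) := by
    simp [Seq.seq]
  show (Nat.pair <$> (Part.some n : Part ℕ) <*> Part.some (f n)) >>= F = Part.some (g n)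
  rw [h2]
  exact (Part.bind_some (Nat.pair n (f n)) F).trans (Part.eq_some_iff.2 (h n))

open Classical in
private noncomputable def u3_v (A : Set ℕ) (n : ℕ) : ℕ := if n ∈ A then 1 else 0

private theorem u3_congr {A B : Set ℕ} {m n : ℕ} (h : m ∈ A ↔ n ∈ B) : u3_v A m = u3_v B n := by
  unfold u3_v
  by_cases h1 : m ∈ A
  · rw [if_pos h1, if_pos (h.1 h1)]
  · rw [if_neg h1, if_neg fun h2 => h1 (h.2 h2)]

private theorem u3_oracle_comp (A : Set ℕ) {q : ℕ → ℕ} (hq : Primrec q) :
    Nat.RecursiveIn {Ch A} (fun n => Part.some (u3_v A (q n))) := by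
  have h0 : Nat.RecursiveIn {Ch A} (fun n => Part.some (u3_v A n)) := Nat.RecursiveIn.oracle _ rfl
  have h1 := h0.comp (Nat.Primrec.recursiveIn (O := {Ch A}) (Primrec.nat_iff.1 hq))
  refine Nat.RecursiveIn.of_eq h1 fun n => ?_
  show (Part.some (q n)).bind (fun n => Part.some (u3_v A n)) = Part.some (u3_v A (q n))
  rw [Part.bind_some]

private theorem u3_comp {O : Set (ℕ →. ℕ)} {f q : ℕ → ℕ} (hf : Nat.RecursiveIn O (fun n => Part.some (f n)))
    (hq : Primrec q) : Nat.RecursiveIn O (fun n => Part.some (f (q n))) := by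
  have h1 := hf.comp (Nat.Primrec.recursiveIn (O := O) (Primrec.nat_iff.1 hq))
  refine Nat.RecursiveIn.of_eq h1 fun n => ?_
  show (Part.some (q n)).bind (fun n => Part.some (f n)) = Part.some (f (q n))
  rw [Part.bind_some]

private theorem u3_pair {O : Set (ℕ →. ℕ)} {f g : ℕ → ℕ}
    (hf : Nat.RecursiveIn O (fun n => Part.some (f n))) (hg : Nat.RecursiveIn O (fun n => Part.some (g n))) :
    Nat.RecursiveIn O (fun n => Part.some (Nat.pair (f n) (g n))) := by
  refine Nat.RecursiveIn.of_eq (hf.pair hg) fun n => ?_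
  simp [Seq.seq]

private theorem u3_le {A B : Set ℕ} (h : Nat.RecursiveIn {Ch B} (fun n => Part.some (u3_v A n))) : Le A B :=
  RecursiveIn.iff_nat.2 h

private theorem u3_of_le {A B : Set ℕ} (h : Le A B) : Nat.RecursiveIn {Ch B} (fun n => Part.some (u3_v A n)) :=
  RecursiveIn.iff_nat.1 h

private theorem u3_par : Computable fun n : ℕ => decide (n % 2 = 0) := by
  have h : PrimrecPred fun n : ℕ => n % 2 = 0 :=
    Primrec.eq.comp (Primrec.nat_mod.comp Primrec.id (Primrec.const 2)) (Primrec.const 0)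
  exact h.decide.to_comp

private theorem u3_half : Primrec fun n : ℕ => n / 2 := Primrec.nat_div.comp Primrec.id (Primrec.const 2)

theorem join_ce {A B : Set ℕ} (hA : CE A) (hB : CE B) : CE (join A B) := by
  obtain ⟨p, hp, hpA⟩ := hA
  obtain ⟨q, hq, hqB⟩ := hB
  refine ⟨fun n => bif decide (n % 2 = 0) then p (n / 2) else q (n / 2), ?_, ?_⟩
  · exact Partrec.nat_iff.mp (Partrec.cond u3_par ((Partrec.nat_iff.mpr hp).comp u3_half.to_comp)
      ((Partrec.nat_iff.mpr hq).comp u3_half.to_comp))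
  · intro n
    rcases Nat.mod_two_eq_zero_or_one n with h | h
    · simp [join, h, hpA]
    · simp [join, h, hqB]

theorem le_join_left (A B : Set ℕ) : Le A (join A B) := by
  have h : Primrec fun n : ℕ => 2 * n := Primrec.nat_mul.comp (Primrec.const 2) Primrec.id
  refine u3_le (Nat.RecursiveIn.of_eq (u3_oracle_comp (join A B) h) fun n => ?_)
  rw [u3_congr (A := join A B) (B := A) (m := 2 * n) (n := n)]
  simp [join]

theorem le_join_right (A B : Set ℕ) : Le B (join A B) := by
  have h : Primrec fun n : ℕ => 2 * n + 1 := Primrec.succ.comp (Primrec.nat_mul.comp (Primrec.const 2) Primrec.id)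
  refine u3_le (Nat.RecursiveIn.of_eq (u3_oracle_comp (join A B) h) fun n => ?_)
  rw [u3_congr (A := join A B) (B := B) (m := 2 * n + 1) (n := n)]
  have h2 : (2 * n + 1) / 2 = n := by omega
  simp [join, h2]

theorem join_le {A B C : Set ℕ} (hA : Le A C) (hB : Le B C) : Le (join A B) C := by
  have hF : Primrec fun m : ℕ => if m.unpair.1 % 2 = 0 then m.unpair.2.unpair.1 else m.unpair.2.unpair.2 := by
    have a : Primrec fun m : ℕ => m.unpair.2 := Primrec.snd.comp Primrec.unpair
    exact Primrec.ite (Primrec.eq.comp (Primrec.nat_mod.comp (Primrec.fst.comp Primrec.unpair) (Primrec.const 2))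
      (Primrec.const 0)) (Primrec.fst.comp (Primrec.unpair.comp a)) (Primrec.snd.comp (Primrec.unpair.comp a))
  refine u3_le (u3_comb (Nat.Partrec.of_primrec (Primrec.nat_iff.1 hF))
    (u3_pair (u3_comp (u3_of_le hA) u3_half) (u3_comp (u3_of_le hB) u3_half)) fun n => ?_)
  show u3_v (join A B) n ∈ (Part.some _ : Part ℕ)
  simp only [Nat.unpair_pair, Part.mem_some_iff]
  rcases Nat.mod_two_eq_zero_or_one n with h | h
  · rw [if_pos h]
    exact u3_congr (by simp [join, h])
  · rw [if_neg (by omega)]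
    exact u3_congr (by simp [join, h])

end Pool.Agent.Lib.H23R
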