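import Mathlib
import Pool.Agent.Lib.H23R.Defs

/-!
# MP_ffd330_lc (library H23R): the limit lemma. Chunk U2.
-/

namespace Pool.Agent.Lib.H23R

open Nat.Partrec (Code)
open Encodable Denumerable

/-- Limit lemma. (Hint: the predicate `∃ t, s ≤ t ∧ h n t ≠ h n s` of `Nat.pair n s` is c.e., so there is a code `e` with
`Nat.pair e (Nat.pair n s) ∈ Halt ↔ ...`; search with `Nat.RecursiveIn.rfind` for the first `s` outside.) -/
theorem limit_lemma (S : Set ℕ) (h : ℕ → ℕ → Bool) (hc : Computable₂ h)
    (hl : ∀ n, ∃ s₀, ∀ s, s₀ ≤ s → (h n s = true ↔ n ∈ S)) : Le S Halt := by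
  classical
  have hp : Computable₂ (fun m k : ℕ =>
      xor (h m.unpair.1 (m.unpair.2 + k)) (h m.unpair.1 m.unpair.2)) := by
    have c1 : Computable (fun z : ℕ × ℕ => z.1.unpair.1) :=
      Computable.fst.comp (Computable.unpair.comp Computable.fst)
    have c2 : Computable (fun z : ℕ × ℕ => z.1.unpair.2) :=
      Computable.snd.comp (Computable.unpair.comp Computable.fst)
    have c3 : Computable (fun z : ℕ × ℕ => z.1.unpair.2 + z.2) :=
      (Primrec.nat_add.to_comp).comp c2 Computable.snd
    exact (Primrec.dom_bool₂ xor).to_comp.comp (hc.comp c1 c3) (hc.comp c1 c2)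
  have hq : Nat.Partrec (fun m : ℕ => Nat.rfind (fun k => Part.some
      (xor (h m.unpair.1 (m.unpair.2 + k)) (h m.unpair.1 m.unpair.2)))) := by
    rw [← Partrec.nat_iff]
    exact Partrec.rfind (p := fun (m k : ℕ) => Part.some
      (xor (h m.unpair.1 (m.unpair.2 + k)) (h m.unpair.1 m.unpair.2))) hp.partrec₂
  obtain ⟨e, he⟩ := Nat.Partrec.Code.exists_code.1 hq
  have hH : ∀ n s, Nat.pair (encode e) (Nat.pair n s) ∈ Halt ↔ ∃ k, h n (s + k) ≠ h n s := by
    intro n s
    have h1 : Nat.pair (encode e) (Nat.pair n s) ∈ Halt ↔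
        (Code.eval e (Nat.pair n s)).Dom := by
      unfold Halt
      rw [Set.mem_ofPred_eq, Nat.unpair_pair, ofNat_encode]
    rw [h1, he]
    constructor
    · intro h2
      obtain ⟨K, hK⟩ := Part.dom_iff_mem.1 h2
      have h3 := Nat.rfind_spec hK
      simp only [Nat.unpair_pair] at h3
      refine ⟨K, fun h4 => ?_⟩
      rw [h4] at h3
      simp at h3
    · rintro ⟨k, hk⟩
      rw [Nat.rfind_dom]
      refine ⟨k, ?_, fun {m} _ => trivial⟩
      simp only [Nat.unpair_pair]
      rw [Part.mem_some_iff]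
      revert hk
      cases h n (s + k) <;> cases h n s <;> simp
  have hor : Nat.RecursiveIn {Ch Halt} (Ch Halt) := Nat.RecursiveIn.oracle _ rfl
  have hpr : Nat.RecursiveIn {Ch Halt} (fun m : ℕ => (Part.some (Nat.pair (encode e) m) : Part ℕ)) := by
    have : Nat.Primrec (fun m : ℕ => Nat.pair (encode e) m) :=
      (Nat.Primrec.const _).pair Nat.Primrec.id
    exact this.recursiveIn
  have hf0 := Nat.RecursiveIn.comp hor hpr
  have hr := Nat.RecursiveIn.rfind hf0
  have hid : Nat.RecursiveIn {Ch Halt} (fun m : ℕ => (Part.some m : Part ℕ)) :=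
    Nat.Primrec.id.recursiveIn
  have hpa := Nat.RecursiveIn.pair hid hr
  have hlast : Nat.RecursiveIn {Ch Halt}
      (fun z : ℕ => (Part.some (if h z.unpair.1 z.unpair.2 = true then 1 else 0) : Part ℕ)) := by
    have hc' : Computable (fun z : ℕ => if h z.unpair.1 z.unpair.2 = true then (1 : ℕ) else 0) := by
      have c1 : Computable (fun z : ℕ => z.unpair.1) := Computable.fst.comp Computable.unpair
      have c2 : Computable (fun z : ℕ => z.unpair.2) := Computable.snd.comp Computable.unpair
      have c3 : Computable (fun z : ℕ => cond (h z.unpair.1 z.unpair.2) (1 : ℕ) 0) :=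
        Computable.cond (hc.comp c1 c2) (Computable.const 1) (Computable.const 0)
      refine c3.of_eq fun z => ?_
      cases h z.unpair.1 z.unpair.2 <;> simp
    exact (Partrec.nat_iff.1 hc'.partrec).recursiveIn
  have hfin := Nat.RecursiveIn.comp hlast hpa
  unfold Le
  rw [TuringReducible, RecursiveIn.iff_nat]
  refine hfin.of_eq fun n => ?_
  -- the search stops
  obtain ⟨s₀, hs₀⟩ := hl n
  have hstop : ∃ s, ∀ k, h n (s + k) = h n s := by
    refine ⟨s₀, fun k => ?_⟩
    have h1 := hs₀ (s₀ + k) (Nat.le_add_right _ _)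
    have h2 := hs₀ s₀ le_rfl
    have h3 := h1.trans h2.symm
    revert h3
    cases h n (s₀ + k) <;> cases h n s₀ <;> simp
  set s := Nat.find hstop with hs
  have hs1 : ∀ k, h n (s + k) = h n s := Nat.find_spec hstop
  have hf0v : ∀ t, ((fun m => (Part.some (Nat.pair (encode e) m) : Part ℕ) >>= Ch Halt)
      (Nat.pair n t)) = Part.some (if ∃ k, h n (t + k) ≠ h n t then 1 else 0) := by
    intro t
    simp only [Part.bind_eq_bind, Part.bind_some, Ch, hH]
  have hrv : (Nat.rfind fun t => (fun m => decide (m = 0)) <$>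
      ((fun m => (Part.some (Nat.pair (encode e) m) : Part ℕ) >>= Ch Halt) (Nat.pair n t)))
      = Part.some s := by
    rw [Part.eq_some_iff, Nat.mem_rfind]
    constructor
    · rw [hf0v]
      have : ¬ ∃ k, h n (s + k) ≠ h n s := fun ⟨k, hk⟩ => hk (hs1 k)
      simp [this]
    · intro t ht
      rw [hf0v]
      have h1 := Nat.find_min hstop ht
      have h2 : ∃ k, h n (t + k) ≠ h n t := by
        by_contra h3
        exact h1 fun k => by
          by_contra h4
          exact h3 ⟨k, h4⟩
      rw [if_pos h2]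
      simp
  have hval : h n s = true ↔ n ∈ S := by
    have h1 := hs₀ (s + s₀) (Nat.le_add_left _ _)
    rw [hs1 s₀] at h1
    exact h1
  simp only [Part.bind_eq_bind, Part.bind_some, Part.map_eq_map, Part.map_some] at hrv ⊢
  rw [hrv]
  have hseq : (Part.some (Nat.pair n) <*> Part.some s : Part ℕ) = Part.some (Nat.pair n s) := by
    simp [Seq.seq]
  rw [hseq, Part.bind_some, Nat.unpair_pair]
  unfold Ch
  by_cases h1 : n ∈ S
  · rw [if_pos h1, if_pos (hval.2 h1)]
  · rw [if_neg h1, if_neg (fun h2 => h1 (hval.1 h2))]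

end Pool.Agent.Lib.H23R
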