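import Mathlib
import Pool.Agent.Lib.H23R.Defs

/-!
# MP_ffd330_lc (library H23R): facts on splittings of c.e. sets. Chunk U5.
-/

namespace Pool.Agent.Lib.H23R

open Nat.Partrec (Code)
open Encodable Denumerable

/-- an oracle question followed by a partial recursive function -/
private theorem U5_comb {O : Set (ℕ →. ℕ)} {f g : ℕ → ℕ} {F : ℕ →. ℕ} (hF : Nat.Partrec F)
    (hf : Nat.RecursiveIn O (fun n => Part.some (f n))) (h : ∀ n, g n ∈ F (Nat.pair n (f n))) :
    Nat.RecursiveIn O (fun n => Part.some (g n)) := by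
  have hid : Nat.RecursiveIn O (fun n => Part.some n) :=
    Nat.RecursiveIn.of_eq (Nat.Primrec.recursiveIn Nat.Primrec.id) fun n => rfl
  have h1 := (hF.recursiveIn (O := O)).comp (hid.pair hf)
  refine Nat.RecursiveIn.of_eq h1 fun n => ?_
  have h2 : (Nat.pair <$> (Part.some n : Part ℕ) <*> Part.some (f n)) = Part.some (Nat.pair n (f n)) := by
    simp [Seq.seq]
  show (Nat.pair <$> (Part.some n : Part ℕ) <*> Part.some (f n)) >>= F = Part.some (g n)
  rw [h2]
  show (Part.some (Nat.pair n (f n))).bind F = Part.some (g n)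
  rw [Part.bind_some]
  exact Part.eq_some_iff.2 (h n)

open Classical in
/-- the values of the characteristic function -/
private noncomputable def U5_v (A : Set ℕ) (n : ℕ) : ℕ := if n ∈ A then 1 else 0

private theorem U5_pos {A : Set ℕ} {n : ℕ} (h : n ∈ A) : U5_v A n = 1 := if_pos h

private theorem U5_neg {A : Set ℕ} {n : ℕ} (h : n ∉ A) : U5_v A n = 0 := if_neg h

private theorem U5_oracle (A : Set ℕ) : Nat.RecursiveIn {Ch A} (fun n => Part.some (U5_v A n)) :=
  Nat.RecursiveIn.oracle _ rfl

/-- an oracle question at a computable argument -/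
private theorem U5_oracle_comp (A : Set ℕ) {q : ℕ → ℕ} (hq : Nat.Primrec q) :
    Nat.RecursiveIn {Ch A} (fun n => Part.some (U5_v A (q n))) := by
  have h1 := (U5_oracle A).comp (Nat.Primrec.recursiveIn (O := {Ch A}) hq)
  refine Nat.RecursiveIn.of_eq h1 fun n => ?_
  show (Part.some (q n)).bind (fun n => Part.some (U5_v A n)) = Part.some (U5_v A (q n))
  rw [Part.bind_some]

private theorem U5_pair {O : Set (ℕ →. ℕ)} {f g : ℕ → ℕ}
    (hf : Nat.RecursiveIn O (fun n => Part.some (f n))) (hg : Nat.RecursiveIn O (fun n => Part.some (g n))) :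
    Nat.RecursiveIn O (fun n => Part.some (Nat.pair (f n) (g n))) := by
  refine Nat.RecursiveIn.of_eq (hf.pair hg) fun n => ?_
  simp [Seq.seq]

private theorem U5_le {A B : Set ℕ} (h : Nat.RecursiveIn {Ch B} (fun n => Part.some (U5_v A n))) : Le A B :=
  RecursiveIn.iff_nat.2 h

/-- a computable enumeration of a c.e. set: `ent s = some n` for exactly one `s` if `n ∈ W`, for no `s` otherwise.
(Hint: `s = Nat.pair n t`, where `t` is the first number of steps with `(Code.evaln t c n).isSome`.) -/
theorem exists_ent {W : Set ℕ} (hW : CE W) : ∃ ent : ℕ → Option ℕ, Primrec ent ∧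
    (∀ n, n ∈ W ↔ ∃ s, ent s = some n) ∧ ∀ s t n, ent s = some n → ent t = some n → s = t := by
  obtain ⟨p, hp, hpW⟩ := hW
  obtain ⟨c, rfl⟩ := Nat.Partrec.Code.exists_code.1 hp
  set ev : ℕ → ℕ → Bool := fun k n => (Code.evaln k c n).isSome with hev
  have hmono : ∀ {k k' n : ℕ}, k ≤ k' → ev k n = true → ev k' n = true := by
    intro k k' n hk h
    obtain ⟨x, hx⟩ := Option.isSome_iff_exists.1 h
    exact Option.isSome_iff_exists.2 ⟨x, Nat.Partrec.Code.evaln_mono hk hx⟩
  have h0 : ∀ n, ev 0 n = false := by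
    intro n
    simp [hev, Code.evaln]
  have hdom : ∀ n, n ∈ W ↔ ∃ k, ev k n = true := by
    intro n
    rw [hpW, Part.dom_iff_mem]
    constructor
    · rintro ⟨x, hx⟩
      obtain ⟨k, hk⟩ := Nat.Partrec.Code.evaln_complete.1 hx
      exact ⟨k, Option.isSome_iff_exists.2 ⟨x, hk⟩⟩
    · rintro ⟨k, hk⟩
      obtain ⟨x, hx⟩ := Option.isSome_iff_exists.1 hk
      exact ⟨x, Nat.Partrec.Code.evaln_sound hx⟩
  have hent : ∀ s n : ℕ, (cond (ev s.unpair.2 s.unpair.1 && !(ev (s.unpair.2 - 1) s.unpair.1))
      (some s.unpair.1) none : Option ℕ) = some n ↔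
      (s.unpair.1 = n ∧ ev s.unpair.2 n = true ∧ ev (s.unpair.2 - 1) n = false) := by
    intro s n
    cases h1 : ev s.unpair.2 s.unpair.1 <;> cases h2 : ev (s.unpair.2 - 1) s.unpair.1 <;>
      simp only [Bool.not_true, Bool.not_false, Bool.and_true, Bool.and_false, cond_true, cond_false]
    · constructor
      · intro h; cases h
      · rintro ⟨rfl, h3, -⟩; rw [h1] at h3; cases h3
    · constructor
      · intro h; cases h
      · rintro ⟨rfl, h3, -⟩; rw [h1] at h3; cases h3
    · constructor
      · intro h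
        have h' : s.unpair.1 = n := Option.some.inj h
        subst h'
        exact ⟨rfl, h1, h2⟩
      · rintro ⟨rfl, -, -⟩; rfl
    · constructor
      · intro h; cases h
      · rintro ⟨rfl, -, h3⟩; rw [h2] at h3; cases h3
  refine ⟨fun s => cond (ev s.unpair.2 s.unpair.1 && !(ev (s.unpair.2 - 1) s.unpair.1))
      (some s.unpair.1) none, ?_, fun n => ?_, fun s t n hs ht => ?_⟩
  · have hf : Primrec fun s : ℕ => s.unpair.1 := Primrec.fst.comp Primrec.unpair
    have hg : Primrec fun s : ℕ => s.unpair.2 := Primrec.snd.comp Primrec.unpair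
    have hg' : Primrec fun s : ℕ => s.unpair.2 - 1 := Primrec.pred.comp hg
    have e1 : Primrec fun s : ℕ => ev s.unpair.2 s.unpair.1 :=
      Primrec.option_isSome.comp (Nat.Partrec.Code.primrec_evaln.comp
        (Primrec.pair (Primrec.pair hg (Primrec.const c)) hf))
    have e2 : Primrec fun s : ℕ => ev (s.unpair.2 - 1) s.unpair.1 :=
      Primrec.option_isSome.comp (Nat.Partrec.Code.primrec_evaln.comp
        (Primrec.pair (Primrec.pair hg' (Primrec.const c)) hf))
    exact Primrec.cond (Primrec.and.comp e1 (Primrec.not.comp e2)) (Primrec.option_some.comp hf)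
      (Primrec.const none)
  · rw [hdom]
    constructor
    · intro h
      classical
      have hk := Nat.find_spec h
      have hpos : Nat.find h ≠ 0 := by
        intro h1
        rw [h1, h0] at hk
        cases hk
      refine ⟨Nat.pair n (Nat.find h), (hent _ _).2 ?_⟩
      rw [Nat.unpair_pair]
      refine ⟨rfl, hk, ?_⟩
      have h2 := Nat.find_min h (m := Nat.find h - 1) (by omega)
      simpa using h2
    · rintro ⟨s, hs⟩
      exact ⟨_, ((hent s n).1 hs).2.1⟩
  · obtain ⟨s1, s2, s3⟩ := (hent s n).1 hs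
    obtain ⟨t1, t2, t3⟩ := (hent t n).1 ht
    have key : s.unpair.2 = t.unpair.2 := by
      rcases lt_trichotomy s.unpair.2 t.unpair.2 with h | h | h
      · have h4 := hmono (show s.unpair.2 ≤ t.unpair.2 - 1 by omega) s2
        rw [t3] at h4; cases h4
      · exact h
      · have h4 := hmono (show t.unpair.2 ≤ s.unpair.2 - 1 by omega) t2
        rw [s3] at h4; cases h4
    rw [← Nat.pair_unpair s, ← Nat.pair_unpair t, s1, t1, key]

/-- the part of `W` that is enumerated at the stages with the value `i` of the computable function `side` is c.e. -/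
theorem part_ce {ent : ℕ → Option ℕ} (he : Primrec ent) {side : ℕ → Bool} (hs : Computable side) (i : Bool) :
    CE {n | ∃ t, ent t = some n ∧ side t = i} := by
  have h1 : Computable₂ fun (n t : ℕ) => decide (ent t = some n) && (side t == i) := by
    have a1 : Computable fun q : ℕ × ℕ => ent q.2 := he.to_comp.comp Computable.snd
    have a2 : Computable fun q : ℕ × ℕ => (some q.1 : Option ℕ) := Computable.option_some.comp Computable.fst
    have a3 : Computable fun q : ℕ × ℕ => side q.2 := hs.comp Computable.snd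
    have b1 : Computable fun q : ℕ × ℕ => decide (ent q.2 = some q.1) := Primrec.beq.to_comp.comp a1 a2
    have b2 : Computable fun q : ℕ × ℕ => (side q.2 == i) := Primrec.beq.to_comp.comp a3 (Computable.const i)
    exact Primrec.and.to_comp.comp b1 b2
  have h2 : Partrec fun n : ℕ => Nat.rfind fun t => Part.some (decide (ent t = some n) && (side t == i)) :=
    Partrec.rfind h1.partrec₂
  refine ⟨_, Partrec.nat_iff.1 h2, fun n => ?_⟩
  rw [Nat.rfind_dom]
  constructor
  · rintro ⟨t, h3, h4⟩
    refine ⟨t, ?_, fun {m} _ => trivial⟩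
    simp [h3, h4]
  · rintro ⟨t, h3, -⟩
    refine ⟨t, ?_⟩
    simpa using h3

/-- the parts are computable in `W` -/
theorem part_le {W : Set ℕ} {ent : ℕ → Option ℕ} (he : Primrec ent) (hW : ∀ n, n ∈ W ↔ ∃ s, ent s = some n)
    (hu : ∀ s t n, ent s = some n → ent t = some n → s = t) {side : ℕ → Bool} (hs : Computable side) (i : Bool) :
    Le {n | ∃ t, ent t = some n ∧ side t = i} W := by
  set A : Set ℕ := {n | ∃ t, ent t = some n ∧ side t = i} with hA
  have h1 : Computable₂ fun (m t : ℕ) => (decide (ent t = some m.unpair.1)) := by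
    have a1 : Computable fun q : ℕ × ℕ => ent q.2 := he.to_comp.comp Computable.snd
    have a2 : Computable fun q : ℕ × ℕ => (some q.1.unpair.1 : Option ℕ) :=
      Computable.option_some.comp (Computable.fst.comp (Computable.unpair.comp Computable.fst))
    have b1 : Computable fun q : ℕ × ℕ => decide (ent q.2 = some q.1.unpair.1) := Primrec.beq.to_comp.comp a1 a2
    exact b1
  have h2 : Partrec fun m : ℕ => Nat.rfind fun t => Part.some (decide (ent t = some m.unpair.1)) :=
    Partrec.rfind h1.partrec₂
  have h3 : Computable₂ fun (m t : ℕ) => cond (side t == i) 1 0 := by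
    have a3 : Computable fun q : ℕ × ℕ => side q.2 := hs.comp Computable.snd
    exact Computable.cond (Primrec.beq.to_comp.comp a3 (Computable.const i)) (Computable.const 1) (Computable.const 0)
  have h4 : Partrec fun m : ℕ => (Nat.rfind fun t => Part.some (decide (ent t = some m.unpair.1))).map
      fun t => cond (side t == i) 1 0 := h2.map h3
  have h5 : Computable fun m : ℕ => (m.unpair.2 == 0) :=
    Primrec.beq.to_comp.comp (Computable.snd.comp Computable.unpair) (Computable.const 0)
  have h6 : Partrec fun m : ℕ => cond (m.unpair.2 == 0) (Part.some 0)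
      ((Nat.rfind fun t => Part.some (decide (ent t = some m.unpair.1))).map fun t => cond (side t == i) 1 0) :=
    Partrec.cond h5 (Computable.const 0).partrec h4
  refine U5_le (U5_comb (Partrec.nat_iff.1 h6) (U5_oracle W) fun n => ?_)
  rw [Nat.unpair_pair]
  by_cases hn : n ∈ W
  · rw [U5_pos hn]
    show U5_v A n ∈ (Nat.rfind fun t => Part.some (decide (ent t = some n))).map fun t => cond (side t == i) 1 0
    have hd : (Nat.rfind fun t => Part.some (decide (ent t = some n))).Dom := by
      rw [Nat.rfind_dom]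
      obtain ⟨s, h7⟩ := (hW n).1 hn
      exact ⟨s, by simp [h7], fun {m} _ => trivial⟩
    obtain ⟨t, ht⟩ := Part.dom_iff_mem.1 hd
    have h8 : ent t = some n := by simpa using Nat.rfind_spec ht
    refine (Part.mem_map_iff _).2 ⟨t, ht, ?_⟩
    by_cases h9 : side t = i
    · have h10 : n ∈ A := ⟨t, h8, h9⟩
      rw [U5_pos h10, h9]; simp
    · have h10 : n ∉ A := by
        rintro ⟨t', h11, h12⟩
        rw [hu t' t n h11 h8] at h12
        exact h9 h12
      rw [U5_neg h10]
      have h11 : (side t == i) = false := by simpa using h9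
      rw [h11]; rfl
  · have h10 : n ∉ A := by
      rintro ⟨t', h11, -⟩
      exact hn ((hW n).2 ⟨t', h11⟩)
    rw [U5_neg hn, U5_neg h10]
    show (0 : ℕ) ∈ (Part.some 0 : Part ℕ)
    exact Part.mem_some 0

/-- a union of two sets is computable in their join -/
theorem union_le_join {A B W : Set ℕ} (h : W = A ∪ B) : Le W (join A B) := by
  have q0 : Nat.Primrec fun n => 2 * n :=
    Primrec.nat_iff.1 (Primrec.nat_mul.comp (Primrec.const 2) Primrec.id)
  have q1 : Nat.Primrec fun n => 2 * n + 1 :=
    Primrec.nat_iff.1 (Primrec.succ.comp (Primrec.nat_mul.comp (Primrec.const 2) Primrec.id))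
  have hF : Primrec fun m : ℕ => cond ((m.unpair.2.unpair.1 == 0) && (m.unpair.2.unpair.2 == 0)) 0 1 := by
    have a : Primrec fun m : ℕ => m.unpair.2 := Primrec.snd.comp Primrec.unpair
    have a1 : Primrec fun m : ℕ => m.unpair.2.unpair.1 := Primrec.fst.comp (Primrec.unpair.comp a)
    have a2 : Primrec fun m : ℕ => m.unpair.2.unpair.2 := Primrec.snd.comp (Primrec.unpair.comp a)
    exact Primrec.cond (Primrec.and.comp (Primrec.beq.comp a1 (Primrec.const 0))
      (Primrec.beq.comp a2 (Primrec.const 0))) (Primrec.const 0) (Primrec.const 1)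
  refine U5_le (U5_comb (Nat.Partrec.of_primrec (Primrec.nat_iff.1 hF))
    (U5_pair (U5_oracle_comp (join A B) q0) (U5_oracle_comp (join A B) q1)) fun n => ?_)
  have j0 : 2 * n ∈ join A B ↔ n ∈ A := by
    unfold join
    constructor
    · rintro (⟨-, h2⟩ | ⟨h1, -⟩)
      · rwa [Nat.mul_div_cancel_left n (by norm_num)] at h2
      · omega
    · intro h1
      refine Or.inl ⟨by omega, ?_⟩
      rwa [Nat.mul_div_cancel_left n (by norm_num)]
  have j1 : 2 * n + 1 ∈ join A B ↔ n ∈ B := by
    have h3 : (2 * n + 1) / 2 = n := by omega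
    unfold join
    constructor
    · rintro (⟨h1, -⟩ | ⟨-, h2⟩)
      · omega
      · rwa [h3] at h2
    · intro h1
      refine Or.inr ⟨by omega, ?_⟩
      rwa [h3]
  show U5_v W n ∈ (Part.some _ : Part ℕ)
  simp only [Nat.unpair_pair, Part.mem_some_iff]
  by_cases hA : n ∈ A
  · have hn : n ∈ W := by rw [h]; exact Or.inl hA
    rw [U5_pos hn, U5_pos (j0.2 hA)]; rfl
  · by_cases hB : n ∈ B
    · have hn : n ∈ W := by rw [h]; exact Or.inr hB
      rw [U5_pos hn, U5_pos (j1.2 hB), U5_neg (fun h' => hA (j0.1 h'))]; rfl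
    · have hn : n ∉ W := by rw [h]; rintro (h' | h') <;> contradiction
      rw [U5_neg hn, U5_neg (fun h' => hA (j0.1 h')), U5_neg (fun h' => hB (j1.1 h'))]; rfl

/-- if `A` is computable, `A ∪ B` is computable in `B` -/
theorem union_le_of_comp {A B W : Set ℕ} (h : W = A ∪ B) (hA : ¬ NonComp A) : Le W B := by
  obtain ⟨hd, hc⟩ := not_not.1 hA
  have hF : Computable fun m : ℕ => cond (decide (m.unpair.1 ∈ A)) 1 m.unpair.2 :=
    Computable.cond (hc.comp (Computable.fst.comp Computable.unpair)) (Computable.const 1)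
      (Computable.snd.comp Computable.unpair)
  refine U5_le (U5_comb (Partrec.nat_iff.1 hF.partrec) (U5_oracle B) fun n => ?_)
  show U5_v W n ∈ (Part.some _ : Part ℕ)
  simp only [Nat.unpair_pair, Part.mem_some_iff]
  by_cases hA' : n ∈ A
  · have hn : n ∈ W := by rw [h]; exact Or.inl hA'
    rw [U5_pos hn]
    simp [hA']
  · by_cases hB : n ∈ B
    · have hn : n ∈ W := by rw [h]; exact Or.inr hB
      rw [U5_pos hn, U5_pos hB]
      simp [hA']
    · have hn : n ∉ W := by rw [h]; rintro (h' | h') <;> contradiction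
      rw [U5_neg hn, U5_neg hB]
      simp [hA']

end Pool.Agent.Lib.H23R
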