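import Mathlib
import Pool.Agent.Lib.H23R.Defs

/-!
# MP_ffd330_lc (library H23R): the use principle. Chunk U1.
-/

namespace Pool.Agent.Lib.H23R

open Nat.Partrec (Code)
open Encodable Denumerable

/-- the monotone functional `F` computes `g` from `x` -/
private def U1_Gd (x : ℕ → Bool) (F : List Bool × ℕ →. ℕ) (g : ℕ →. ℕ) : Prop :=
  (∀ σ τ n m, σ <+: τ → m ∈ F (σ, n) → m ∈ F (τ, n)) ∧ ∀ n m, m ∈ g n ↔ ∃ k, m ∈ F (seg x k, n)

private theorem U1_seg (x : ℕ → Bool) {k l : ℕ} (h : k ≤ l) : seg x k <+: seg x l := by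
  have : seg x k = (seg x l).take k := by
    rw [seg, seg, ← List.map_take, List.take_range, min_eq_left h]
  rw [this]
  exact List.take_prefix _ _

private theorem U1_up {x : ℕ → Bool} {F : List Bool × ℕ →. ℕ} {g : ℕ →. ℕ} (h : U1_Gd x F g) {k l : ℕ} (hkl : k ≤ l)
    {n m : ℕ} (hm : m ∈ F (seg x k, n)) : m ∈ F (seg x l, n) :=
  h.1 _ _ _ _ (U1_seg x hkl) hm

private theorem U1_tot (x : ℕ → Bool) (f : ℕ → ℕ) (hf : Computable f) :
    ∃ F : List Bool × ℕ →. ℕ, Partrec F ∧ U1_Gd x F (fun n => Part.some (f n)) :=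
  ⟨fun p => Part.some (f p.2), (hf.comp Computable.snd).partrec, fun _ _ _ _ _ h => h,
    fun _ _ => ⟨fun h => ⟨0, h⟩, fun ⟨_, h⟩ => h⟩⟩

private theorem U1_main (x : ℕ → Bool) (g : ℕ →. ℕ)
    (h : Nat.RecursiveIn {fun n => Part.some (if x n = true then (1 : ℕ) else 0)} g) :
    ∃ F : List Bool × ℕ →. ℕ, Partrec F ∧ U1_Gd x F g := by
  induction h with
  | zero => exact U1_tot x (fun _ => 0) (Computable.const 0)
  | succ => exact U1_tot x Nat.succ Computable.succ
  | left => exact U1_tot x (fun n => n.unpair.1) (Computable.fst.comp Computable.unpair)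
  | right => exact U1_tot x (fun n => n.unpair.2) (Computable.snd.comp Computable.unpair)
  | oracle g hg =>
    obtain rfl : g = _ := hg
    refine ⟨fun p => ((p.1[p.2]?).map fun b : Bool => if b = true then (1 : ℕ) else 0 : Option ℕ), ?_, ?_, ?_⟩
    · apply Computable.ofOption
      apply Computable.option_map
      · exact Primrec.list_getElem?.to_comp.comp Computable.fst Computable.snd
      · exact ((Primrec.ite (Primrec.eq.comp Primrec.snd (Primrec.const true)) (Primrec.const 1)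
          (Primrec.const 0)).to_comp).to₂
    · intro σ τ n m hst hm
      simp only [Part.mem_coe, Option.mem_def, Option.map_eq_some_iff] at hm ⊢
      obtain ⟨b, hb, rfl⟩ := hm
      refine ⟨b, ?_, rfl⟩
      obtain ⟨l, rfl⟩ := hst
      rw [List.getElem?_append_left]
      · exact hb
      · exact (List.getElem?_eq_some_iff.1 hb).1
    · intro n m
      simp only [Part.mem_coe, Option.mem_def, Option.map_eq_some_iff, Part.mem_some_iff]
      constructor
      · rintro rfl
        refine ⟨n + 1, x n, ?_, rfl⟩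
        simp [seg]
      · rintro ⟨k, b, hb, rfl⟩
        have : x n = b := by
          simp only [seg, List.getElem?_map, Option.map_eq_some_iff] at hb
          obtain ⟨a, ha, rfl⟩ := hb
          have := (List.getElem?_eq_some_iff.1 ha)
          obtain ⟨h1, h2⟩ := this
          rw [List.getElem_range] at h2
          rw [h2]
        rw [this]
  | @pair f h _ _ ih1 ih2 =>
    obtain ⟨F, hF, hF2⟩ := ih1
    obtain ⟨H, hH, hH2⟩ := ih2
    refine ⟨fun p => (F p).bind fun a => (H p).map fun b => Nat.pair a b, ?_, ?_, ?_⟩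
    · refine hF.bind ?_
      refine Partrec.map (hH.comp Computable.fst) ?_
      exact (Primrec₂.natPair.to_comp.comp (Computable.snd.comp Computable.fst) Computable.snd).to₂
    · intro σ τ n m hst hm
      simp only [Part.mem_bind_iff, Part.mem_map_iff] at hm ⊢
      obtain ⟨a, ha, b, hb, rfl⟩ := hm
      exact ⟨a, hF2.1 _ _ _ _ hst ha, b, hH2.1 _ _ _ _ hst hb, rfl⟩
    · intro n m
      simp only [Seq.seq, Part.mem_bind_iff, Part.mem_map_iff, Part.map_eq_map]
      constructor
      · rintro ⟨_, ⟨a, ha, rfl⟩, b, hb, rfl⟩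
        obtain ⟨k, hk⟩ := (hF2.2 _ _).1 ha
        obtain ⟨l, hl⟩ := (hH2.2 _ _).1 hb
        exact ⟨max k l, a, U1_up hF2 (le_max_left _ _) hk, b, U1_up hH2 (le_max_right _ _) hl, rfl⟩
      · rintro ⟨k, a, ha, b, hb, rfl⟩
        exact ⟨_, ⟨a, (hF2.2 _ _).2 ⟨k, ha⟩, rfl⟩, b, (hH2.2 _ _).2 ⟨k, hb⟩, rfl⟩
  | @comp f h _ _ ih1 ih2 =>
    obtain ⟨F, hF, hF2⟩ := ih1
    obtain ⟨H, hH, hH2⟩ := ih2
    refine ⟨fun p => (H p).bind fun a => F (p.1, a), ?_, ?_, ?_⟩
    · refine hH.bind ?_
      exact (hF.comp ((Computable.fst.comp Computable.fst).pair Computable.snd)).to₂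
    · intro σ τ n m hst hm
      simp only [Part.mem_bind_iff] at hm ⊢
      obtain ⟨a, ha, hb⟩ := hm
      exact ⟨a, hH2.1 _ _ _ _ hst ha, hF2.1 _ _ _ _ hst hb⟩
    · intro n m
      constructor
      · intro hm
        obtain ⟨a, ha, hb⟩ := Part.mem_bind_iff.1 hm
        obtain ⟨k, hk⟩ := (hH2.2 _ _).1 ha
        obtain ⟨l, hl⟩ := (hF2.2 _ _).1 hb
        exact ⟨max k l, Part.mem_bind_iff.2 ⟨a, U1_up hH2 (le_max_left _ _) hk, U1_up hF2 (le_max_right _ _) hl⟩⟩
      · rintro ⟨k, hm⟩
        obtain ⟨a, ha, hb⟩ := Part.mem_bind_iff.1 hm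
        exact Part.mem_bind_iff.2 ⟨a, (hH2.2 _ _).2 ⟨k, ha⟩, (hF2.2 _ _).2 ⟨k, hb⟩⟩
  | @prec f h _ _ ih1 ih2 =>
    obtain ⟨F, hF, hF2⟩ := ih1
    obtain ⟨H, hH, hH2⟩ := ih2
    refine ⟨fun p => Nat.rec (F (p.1, p.2.unpair.1))
      (fun y IH => IH.bind fun i => H (p.1, Nat.pair p.2.unpair.1 (Nat.pair y i))) p.2.unpair.2, ?_, ?_, ?_⟩
    · refine Partrec.nat_rec (f := fun p : List Bool × ℕ => p.2.unpair.2) (g := fun p => F (p.1, p.2.unpair.1))
        (h := fun p q => H (p.1, Nat.pair p.2.unpair.1 (Nat.pair q.1 q.2))) ?_ ?_ ?_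
      · exact (Computable.snd.comp Computable.unpair).comp Computable.snd
      · exact hF.comp (Computable.fst.pair ((Computable.fst.comp Computable.unpair).comp Computable.snd))
      · have h1 : Computable fun q : (List Bool × ℕ) × ℕ × ℕ =>
            ((q.1.1, Nat.pair q.1.2.unpair.1 (Nat.pair q.2.1 q.2.2)) : List Bool × ℕ) := by
          refine Computable.pair (Computable.fst.comp Computable.fst) ?_
          refine Primrec₂.natPair.to_comp.comp
            (((Computable.fst.comp Computable.unpair).comp Computable.snd).comp Computable.fst) ?_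
          exact Primrec₂.natPair.to_comp.comp (Computable.fst.comp Computable.snd)
            (Computable.snd.comp Computable.snd)
        exact (hH.comp h1).to₂
    · intro σ τ n m hst
      show m ∈ (Nat.rec (F (σ, n.unpair.1)) (fun y IH => IH.bind fun i => H (σ, Nat.pair n.unpair.1 (Nat.pair y i)))
        n.unpair.2 : Part ℕ) → m ∈ (Nat.rec (F (τ, n.unpair.1))
        (fun y IH => IH.bind fun i => H (τ, Nat.pair n.unpair.1 (Nat.pair y i))) n.unpair.2 : Part ℕ)
      generalize n.unpair.1 = a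
      generalize n.unpair.2 = r
      induction r generalizing m with
      | zero => exact fun hm => hF2.1 _ _ _ _ hst hm
      | succ r ih =>
        intro hm
        simp only [Part.mem_bind_iff] at hm ⊢
        obtain ⟨i, hi, hm⟩ := hm
        exact ⟨i, ih i hi, hH2.1 _ _ _ _ hst hm⟩
    · intro n m
      have hmono : ∀ (a r m : ℕ) {k l : ℕ}, k ≤ l →
          m ∈ (Nat.rec (F (seg x k, a)) (fun y IH => IH.bind fun i => H (seg x k, Nat.pair a (Nat.pair y i))) r : Part ℕ) →
          m ∈ (Nat.rec (F (seg x l, a)) (fun y IH => IH.bind fun i => H (seg x l, Nat.pair a (Nat.pair y i))) r :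
            Part ℕ) := by
        intro a r
        induction r with
        | zero => exact fun m k l hkl hm => U1_up hF2 hkl hm
        | succ r ih =>
          intro m k l hkl hm
          simp only [Part.mem_bind_iff] at hm ⊢
          obtain ⟨i, hi, hm⟩ := hm
          exact ⟨i, ih i hkl hi, U1_up hH2 hkl hm⟩
      show m ∈ (Nat.rec (f n.unpair.1) (fun y IH => IH.bind fun i => h (Nat.pair n.unpair.1 (Nat.pair y i)))
        n.unpair.2 : Part ℕ) ↔ ∃ k, m ∈ (Nat.rec (F (seg x k, n.unpair.1))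
        (fun y IH => IH.bind fun i => H (seg x k, Nat.pair n.unpair.1 (Nat.pair y i))) n.unpair.2 : Part ℕ)
      generalize n.unpair.1 = a
      generalize n.unpair.2 = r
      induction r generalizing m with
      | zero => exact hF2.2 _ _
      | succ r ih =>
        simp only [Part.mem_bind_iff]
        constructor
        · rintro ⟨i, hi, hm⟩
          obtain ⟨k, hk⟩ := (ih i).1 hi
          obtain ⟨l, hl⟩ := (hH2.2 _ _).1 hm
          exact ⟨max k l, i, hmono _ _ _ (le_max_left _ _) hk, U1_up hH2 (le_max_right _ _) hl⟩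
        · rintro ⟨k, i, hi, hm⟩
          exact ⟨i, (ih i).2 ⟨k, hi⟩, (hH2.2 _ _).2 ⟨k, hm⟩⟩
  | @rfind f _ ih1 =>
    obtain ⟨F, hF, hF2⟩ := ih1
    refine ⟨fun p => Nat.rfind fun n => (F (p.1, Nat.pair p.2 n)).map fun m => decide (m = 0), ?_, ?_, ?_⟩
    · refine Partrec.rfind (p := fun (p : List Bool × ℕ) n =>
        (F (p.1, Nat.pair p.2 n)).map fun m => decide (m = 0)) ?_
      have h1 : Computable fun q : (List Bool × ℕ) × ℕ => ((q.1.1, Nat.pair q.1.2 q.2) : List Bool × ℕ) :=
        Computable.pair (Computable.fst.comp Computable.fst)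
          (Primrec₂.natPair.to_comp.comp (Computable.snd.comp Computable.fst) Computable.snd)
      have h2 : Computable₂ fun (_ : (List Bool × ℕ) × ℕ) (m : ℕ) => decide (m = 0) :=
        ((Primrec.eq.comp Primrec.snd (Primrec.const 0)).decide.to_comp).to₂
      exact (Partrec.map (hF.comp h1) h2).to₂
    · intro σ τ n m hst hm
      have hm' := Nat.mem_rfind.1 hm
      refine Nat.mem_rfind.2 ⟨?_, fun {j} hj => ?_⟩
      · obtain ⟨a, ha, ha'⟩ := (Part.mem_map_iff _).1 hm'.1
        exact (Part.mem_map_iff _).2 ⟨a, hF2.1 _ _ _ _ hst ha, ha'⟩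
      · obtain ⟨a, ha, ha'⟩ := (Part.mem_map_iff _).1 (hm'.2 hj)
        exact (Part.mem_map_iff _).2 ⟨a, hF2.1 _ _ _ _ hst ha, ha'⟩
    · intro n m
      constructor
      · intro hm
        have hm' := Nat.mem_rfind.1 hm
        have h3 : ∀ j < m, ∃ k a, a ∈ F (seg x k, Nat.pair n j) ∧ decide (a = 0) = false := by
          intro j hj
          obtain ⟨b, hb, hb'⟩ := (Part.mem_map_iff _).1 (hm'.2 hj)
          obtain ⟨k, hk⟩ := (hF2.2 _ _).1 hb
          exact ⟨k, b, hk, hb'⟩
        choose! K A hK using h3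
        obtain ⟨a, ha, ha'⟩ := (Part.mem_map_iff _).1 hm'.1
        obtain ⟨k, hk⟩ := (hF2.2 _ _).1 ha
        refine ⟨k + ∑ j ∈ Finset.range m, K j, Nat.mem_rfind.2 ⟨?_, fun {j} hj => ?_⟩⟩
        · exact (Part.mem_map_iff _).2 ⟨a, U1_up hF2 (Nat.le_add_right _ _) hk, ha'⟩
        · refine (Part.mem_map_iff _).2 ⟨A j, U1_up hF2 ?_ (hK j hj).1, (hK j hj).2⟩
          exact (Finset.single_le_sum (f := K) (fun _ _ => Nat.zero_le _) (Finset.mem_range.2 hj)).trans
            (Nat.le_add_left _ _)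
      · rintro ⟨k, hm⟩
        have hm' := Nat.mem_rfind.1 hm
        refine Nat.mem_rfind.2 ⟨?_, fun {j} hj => ?_⟩
        · obtain ⟨a, ha, ha'⟩ := (Part.mem_map_iff _).1 hm'.1
          exact (Part.mem_map_iff _).2 ⟨a, (hF2.2 _ _).2 ⟨k, ha⟩, ha'⟩
        · obtain ⟨b, hb, hb'⟩ := (Part.mem_map_iff _).1 (hm'.2 hj)
          exact (Part.mem_map_iff _).2 ⟨b, (hF2.2 _ _).2 ⟨k, hb⟩, hb'⟩

/-- Use principle. (Hint: prove by induction on `h` the stronger statement with the clause
`∀ σ τ n m, σ <+: τ → m ∈ F (σ, n) → m ∈ F (τ, n)`; `F` is the same program with the oracle replaced by the lookup in the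
list, which diverges outside of the list; `Partrec.bind`, `Partrec.nat_rec`, `Partrec.rfind`.) -/
theorem use_principle (x : ℕ → Bool) (g : ℕ →. ℕ)
    (h : Nat.RecursiveIn {fun n => Part.some (if x n = true then (1 : ℕ) else 0)} g) :
    ∃ F : List Bool × ℕ →. ℕ, Partrec F ∧ ∀ n m, m ∈ g n ↔ ∃ k, m ∈ F (seg x k, n) := by
  obtain ⟨F, hF, hF2⟩ := U1_main x g h
  exact ⟨F, hF, hF2.2⟩

end Pool.Agent.Lib.H23R
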