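import Mathlib
import Pool.Agent.Lib.H23R.Constr
import Pool.Agent.Lib.H23R.Use
import Pool.Agent.Lib.H23R.Limit
import Pool.Agent.Lib.H23R.Split

/-!
# MP_ffd330_lc (library H23R): Sacks' splitting theorem, every c.e. set is the union of two low c.e. sets that avoid a
sequence of upper cones
-/

namespace Pool.Agent.Lib.H23R

open Nat.Partrec (Code)
open Encodable Denumerable
open scoped Classical

theorem Ch_Part (ent : ℕ → Option ℕ) (side : ℕ → Bool) (i : Bool) :
    Ch (Part ent side i) = fun n => Part.some (if xl ent side i n = true then (1 : ℕ) else 0) := by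
  funext n
  unfold Ch
  congr 1
  have : n ∈ Part ent side i ↔ xl ent side i n = true := by
    unfold xl Part
    simp
  simp only [this]

/-- the codes of the functionals, with a parameter -/
theorem use_code {F : List Bool × ℕ →. ℕ} (hF : Partrec F) : ∃ c : Code, ∀ σ n j m,
    (m ∈ F (σ, n) → ∃ j, Code.evaln j c (encode (σ, n)) = some m) ∧ (Code.evaln j c (encode (σ, n)) = some m → m ∈ F (σ, n)) := by
  obtain ⟨c, hc⟩ := Code.exists_code.1 hF
  refine ⟨c, fun σ n j m => ?_⟩
  have h1 : Code.eval c (encode (σ, n)) = F (σ, n) := by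
    rw [hc]
    simp only [encodek, Part.coe_some, Part.bind_some]
    exact Part.map_id' (fun _ => rfl) _
  constructor
  · intro hm
    rw [← h1, Code.evaln_complete] at hm
    exact hm
  · intro hm
    rw [← h1, Code.evaln_complete]
    exact ⟨j, hm⟩

/-- the functionals as numbers -/
theorem use_Q {x : ℕ → Bool} {g : ℕ →. ℕ} (h : Nat.RecursiveIn {fun n => Part.some (if x n = true then (1 : ℕ) else 0)} g) :
    ∃ e, ∀ n m, m ∈ g n ↔ ∃ c, Q e n x c = some m := by
  obtain ⟨F, hF, hg⟩ := use_principle x g h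
  obtain ⟨c, hc⟩ := use_code hF
  refine ⟨encode c, fun n m => ?_⟩
  rw [hg]
  constructor
  · rintro ⟨k, hk⟩
    obtain ⟨j, hj⟩ := (hc (seg x k) n 0 m).1 hk
    refine ⟨Nat.pair k j, ?_⟩
    unfold Q
    rw [Nat.unpair_pair, ofNat_encode]
    exact hj
  · rintro ⟨c', hc'⟩
    unfold Q at hc'
    rw [ofNat_encode] at hc'
    exact ⟨_, (hc _ _ _ _).2 hc'⟩

/-- the functionals with the argument as a parameter -/
theorem use_Q0 {x : ℕ → Bool} {g : ℕ →. ℕ} (h : Nat.RecursiveIn {fun n => Part.some (if x n = true then (1 : ℕ) else 0)} g) :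
    ∃ e : ℕ → ℕ, Primrec e ∧ ∀ n, (g n).Dom ↔ ∃ c, (Q (e n) 0 x c).isSome = true := by
  obtain ⟨F, hF, hg⟩ := use_principle x g h
  have hF' : Partrec fun a : ℕ × (List Bool × ℕ) => F (a.2.1, a.1) :=
    hF.comp ((Computable.fst.comp Computable.snd).pair Computable.fst)
  obtain ⟨c, hc⟩ := Code.exists_code.1 hF'
  refine ⟨fun n => encode (Code.curry c n), Primrec.encode.comp (Code.primrec₂_curry.comp (Primrec.const c) Primrec.id),
    fun n => ?_⟩
  have h1 : ∀ σ, Code.eval (Code.curry c n) (encode (σ, 0)) = F (σ, n) := by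
    intro σ
    rw [Code.eval_curry, hc]
    have h2 : Nat.pair n (encode ((σ, 0) : List Bool × ℕ)) = encode ((n, (σ, 0)) : ℕ × (List Bool × ℕ)) := rfl
    rw [h2]
    simp only [encodek, Part.coe_some, Part.bind_some]
    exact Part.map_id' (fun _ => rfl) _
  rw [Part.dom_iff_mem]
  constructor
  · rintro ⟨m, hm⟩
    obtain ⟨k, hk⟩ := (hg n m).1 hm
    rw [← h1, Code.evaln_complete] at hk
    obtain ⟨j, hj⟩ := hk
    refine ⟨Nat.pair k j, ?_⟩
    unfold Q
    rw [Nat.unpair_pair, ofNat_encode]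
    exact Option.isSome_iff_exists.2 ⟨m, hj⟩
  · rintro ⟨c', hc'⟩
    unfold Q at hc'
    rw [ofNat_encode] at hc'
    obtain ⟨m, hm⟩ := Option.isSome_iff_exists.1 hc'
    refine ⟨m, (hg n m).2 ⟨c'.unpair.1, ?_⟩⟩
    rw [← h1, Code.evaln_complete]
    exact ⟨_, hm⟩

/-- search for the first number with a decidable property -/
theorem find_comp {P : ℕ → ℕ → Prop} (hP : PrimrecRel P) (hex : ∀ y, ∃ s, P y s) :
    ∃ f : ℕ → ℕ, Computable f ∧ ∀ y, P y (f y) := by
  have h1 : Partrec fun y => Nat.rfind ((fun s => Part.some (decide (P y s)) : ℕ →. Bool)) :=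
    Partrec.rfind (PrimrecPred.decide hP).to_comp.partrec
  refine ⟨fun y => Nat.find (hex y), ?_, fun y => Nat.find_spec (hex y)⟩
  refine Partrec.of_eq_tot h1 fun y => ?_
  refine Nat.mem_rfind.2 ⟨?_, fun {m} hm => ?_⟩
  · rw [Part.mem_some_iff, eq_comm, decide_eq_true_iff]
    exact Nat.find_spec (hex y)
  · rw [Part.mem_some_iff, eq_comm, decide_eq_false_iff_not]
    exact Nat.find_min (hex y) hm

/-- if a functional that is injured finitely often computes the set, then the set is computable -/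
theorem comp_of_all {ent : ℕ → Option ℕ} (he : Primrec ent) {tgt : ℕ → ℕ → Option ℕ} (ht : Primrec₂ tgt) {side : ℕ → Bool}
    (hsd : Primrec side) {i : Bool} {e s₁ : ℕ} (hni : NI ent side tgt i e s₁) (hall : All ent side tgt i e) :
    ComputablePred fun n => ∃ t, tgt e.unpair.1 t = some n := by
  have hP : PrimrecRel fun y s => s₁ ≤ s ∧ y < s ∧ ∀ y' < y + 1, Agr ent side tgt i e y' s := by
    refine PrimrecPred.and (Primrec.nat_le.comp (Primrec.const s₁) Primrec.snd) (PrimrecPred.and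
      (Primrec.nat_lt.comp Primrec.fst Primrec.snd) ?_)
    refine ball (Primrec.succ.comp Primrec.fst) ?_
    have h2 : Primrec fun a : (ℕ × ℕ) × ℕ => a.1.2 := Primrec.snd.comp Primrec.fst
    exact AgrX_prim (xs_prim he hsd (Primrec.const i) h2) (Ws_prim ht (Primrec.const e.unpair.1) h2)
      (Primrec.const e.unpair.2) Primrec.snd h2
  obtain ⟨f, hf, hfP⟩ := find_comp hP (by
    intro y
    obtain ⟨s, h1, h2⟩ := ((exists_agr hall y).and (Filter.eventually_ge_atTop (s₁ + y + 1))).exists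
    exact ⟨s, by omega, by omega, fun y' hy' => h1 y' (by omega)⟩)
  have h3 : ∀ y, Ws (tgt e.unpair.1) (f y) y ↔ ∃ t, tgt e.unpair.1 t = some y := by
    intro y
    obtain ⟨h4, h5, h6⟩ := hfP y
    exact (stable hni hall y (f y) h4 h5 (fun y' hy' => h6 y' (by omega)) (f y) le_rfl).2
  refine ComputablePred.of_eq (p := fun y => Ws (tgt e.unpair.1) (f y) y) ⟨inferInstance, ?_⟩ h3
  have h7 : Primrec₂ fun s y : ℕ => decide (Ws (tgt e.unpair.1) s y) :=
    PrimrecPred.decide (Ws_prim ht (Primrec.const e.unpair.1) Primrec.id)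
  exact h7.to_comp.comp hf Computable.id

/-- SACKS' SPLITTING THEOREM: a c.e. set is the union of two disjoint low c.e. sets that compute none of the members of a given
uniformly c.e. sequence of noncomputable sets -/
theorem sacks {W : Set ℕ} (hW : CE W) {tgt : ℕ → ℕ → Option ℕ} (ht : Primrec₂ tgt)
    (hn : ∀ k, NonComp {n | ∃ t, tgt k t = some n}) : ∃ A B : Set ℕ, CE A ∧ CE B ∧ W = A ∪ B ∧ Disjoint A B ∧ Le A W ∧
    Le B W ∧ (∀ k, ¬ Le {n | ∃ t, tgt k t = some n} A) ∧ (∀ k, ¬ Le {n | ∃ t, tgt k t = some n} B) ∧ Low A ∧ Low B := by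
  obtain ⟨ent, he, hent, hu⟩ := exists_ent hW
  obtain ⟨side, hsd, hside⟩ := construction he ht
  have hcomp : ∀ i e s₁, NI ent side tgt i e s₁ → ¬ All ent side tgt i e := fun i e s₁ hni hall =>
    hn e.unpair.1 (comp_of_all he ht hsd hni hall)
  have hpr := priority hu hside hcomp
  have hNI : ∀ i e, ∃ s₁, NI ent side tgt i e s₁ := by
    intro i e
    have h := (hpr (2 * e + i.toNat)).2
    have h1 : (2 * e + i.toNat).bodd = i := by cases i <;> simp
    have h2 : (2 * e + i.toNat) / 2 = e := by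
      cases i with
      | false => simp
      | true => simp; omega
    rwa [h1, h2] at h
  have hnle : ∀ i k, ¬ Le {n | ∃ t, tgt k t = some n} (Part ent side i) := by
    intro i k hle
    unfold Le at hle
    rw [Ch_Part] at hle
    obtain ⟨e, hQ⟩ := use_Q (RecursiveIn.iff_nat.1 hle)
    obtain ⟨s₁, hs₁⟩ := hNI i (Nat.pair k e)
    refine hcomp i (Nat.pair k e) s₁ hs₁ fun y => ?_
    rw [Nat.unpair_pair]
    have hv : (if ∃ t, tgt k t = some y then 1 else 0) ∈ Ch {n | ∃ t, tgt k t = some n} y := by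
      unfold Ch
      rw [Part.mem_some_iff]
      rfl
    obtain ⟨c₀, hc₀⟩ := (hQ y _).1 hv
    obtain ⟨c, hc⟩ := exists_isW (e := e) (y := y) (x := xl ent side i) (c := c₀) (by rw [hc₀]; rfl)
    obtain ⟨m, hm⟩ := Option.isSome_iff_exists.1 hc.1
    refine ⟨c, hc, ?_⟩
    simp only
    rw [hm, Part.mem_unique ((hQ y m).2 ⟨c, hm⟩) hv]
  have hlow : ∀ i, Low (Part ent side i) := by
    intro i g hg
    rw [Ch_Part] at hg
    obtain ⟨e, hep, hQ⟩ := use_Q0 (RecursiveIn.iff_nat.1 hg)
    refine limit_lemma _ (fun n s => decide (∃ c < s, isW (e n) 0 (xs ent side i s) c)) ?_ fun n => ?_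
    · refine Primrec₂.to_comp (PrimrecPred.decide ?_)
      refine bex Primrec.snd ?_
      have h2 : Primrec fun a : (ℕ × ℕ) × ℕ => a.1.2 := Primrec.snd.comp Primrec.fst
      have h1 : Primrec fun a : (ℕ × ℕ) × ℕ => a.1.1 := Primrec.fst.comp Primrec.fst
      exact isW_prim (xs_prim he hsd (Primrec.const i) h2) (hep.comp h1) (Primrec.const 0) Primrec.snd
    · obtain ⟨s₁, hs₁⟩ := hNI i (Nat.pair 0 (e n))
      have h3 := conv_lim hs₁
      rw [Nat.unpair_pair] at h3
      obtain ⟨s₀, hs₀⟩ := Filter.eventually_atTop.1 h3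
      refine ⟨s₀, fun s hs => ?_⟩
      rw [decide_eq_true_iff, hs₀ s hs]
      change _ ↔ (g n).Dom
      rw [hQ]
      exact ⟨fun ⟨c, hc⟩ => ⟨c, hc.1⟩, fun ⟨c, hc⟩ => exists_isW hc⟩
  refine ⟨Part ent side false, Part ent side true, part_ce he hsd.to_comp false, part_ce he hsd.to_comp true, ?_, ?_,
    part_le he hent hu hsd.to_comp false, part_le he hent hu hsd.to_comp true, hnle false, hnle true, hlow false, hlow true⟩
  · ext n
    rw [hent, Set.mem_union]
    constructor
    · rintro ⟨t, ht⟩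
      cases hb : side t with
      | false => exact Or.inl ⟨t, ht, hb⟩
      | true => exact Or.inr ⟨t, ht, hb⟩
    · rintro (⟨t, ht, -⟩ | ⟨t, ht, -⟩)
      · exact ⟨t, ht⟩
      · exact ⟨t, ht⟩
  · rw [Set.disjoint_left]
    rintro n ⟨t, ht, h1⟩ ⟨t', ht', h2⟩
    rw [hu t t' n ht ht', h2] at h1
    exact absurd h1 (by decide)

end Pool.Agent.Lib.H23R
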