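import Mathlib
import Pool.Agent.Lib.H23R.Sacks
import Pool.Agent.Lib.H23R.Join

/-!
# MP_ffd330_lc (library H23R): the reduction theorem
-/

namespace Pool.Agent.Lib.H23R

open Nat.Partrec (Code)
open Encodable Denumerable
open scoped Classical

/-- the conclusion of Q1 for the degree of `W`, with the class `K` in place of the class of the high c.e. sets: the degree
of `W` contains a c.e. set `A` such that, for every `H` in `K`, some automorphism takes `A` to a set of the degree of `H` -/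
def Meets (K : Set ℕ → Prop) (W : Set ℕ) : Prop := ∃ A, CE A ∧ Le A W ∧ Le W A ∧
  ∀ H, K H → ∃ Φ, Auto Φ ∧ Le (Φ A) H ∧ Le H (Φ A)

/-- the join of a list of sets -/
def bj : List (Set ℕ) → Set ℕ
  | [] => ∅
  | B :: L => join B (bj L)

/-- for every `H` in `K` that does not compute `A`, some automorphism takes `A` to a set computable in `H` -/
def Dips (K : Set ℕ → Prop) (A : Set ℕ) : Prop := ∀ H, K H → ¬ Le A H → ∃ Φ, Auto Φ ∧ Le (Φ A) H

/-- for some number `m` and every `H` in `K`, the degree of `H` is the join of the degrees of `m + 1` sets automorphic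
to `B` -/
def Gens (K : Set ℕ → Prop) (B : Set ℕ) : Prop := ∃ m : ℕ, ∀ H, K H →
  ∃ L : List (Set ℕ → Set ℕ), L.length = m + 1 ∧ (∀ Φ ∈ L, Auto Φ ∧ Le (Φ B) H) ∧ Le H (bj (L.map fun Φ => Φ B))

theorem auto_id : Auto id := ⟨fun _ h => h, fun Y h => ⟨Y, h, rfl⟩, fun _ _ _ _ => Iff.rfl⟩

theorem Dips.all {K : Set ℕ → Prop} {A : Set ℕ} (h : Dips K A) (H : Set ℕ) (hH : K H) : ∃ Φ, Auto Φ ∧ Le (Φ A) H := by
  by_cases h1 : Le A H
  · exact ⟨id, auto_id, h1⟩
  · exact h H hH h1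

theorem empty_ce : CE ∅ := ⟨fun _ => Part.none, Nat.Partrec.none, fun n => by simp⟩

theorem empty_le (H : Set ℕ) : Le ∅ H := by
  have h1 : Partrec (fun _ => Part.some 0 : ℕ →. ℕ) := (Computable.const 0).partrec
  have h2 : Ch ∅ = (fun _ => Part.some 0 : ℕ →. ℕ) := by
    funext n
    unfold Ch
    simp
  unfold Le
  rw [h2]
  exact h1.recursiveIn

theorem bj_ce : ∀ {L : List (Set ℕ)}, (∀ B ∈ L, CE B) → CE (bj L)
  | [], _ => empty_ce
  | _ :: _, h => join_ce (h _ (List.mem_cons_self ..)) (bj_ce fun B hB => h B (List.mem_cons_of_mem _ hB))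

theorem bj_le : ∀ {L : List (Set ℕ)} {H : Set ℕ}, (∀ B ∈ L, Le B H) → Le (bj L) H
  | [], H, _ => empty_le H
  | _ :: _, _, h => join_le (h _ (List.mem_cons_self ..)) (bj_le fun B hB => h B (List.mem_cons_of_mem _ hB))

/-- automorphisms act separately on the members of a join -/
theorem bj_auto (B : Set ℕ) : ∀ (L : List (Set ℕ → Set ℕ)), (∀ Φ ∈ L, Auto Φ) →
    ∃ Θ : Set ℕ → Set ℕ, Auto Θ ∧ Θ (bj (List.replicate L.length B)) = bj (L.map fun Φ => Φ B)
  | [], _ => ⟨id, ⟨fun _ h => h, fun Y h => ⟨Y, h, rfl⟩, fun _ _ _ _ => Iff.rfl⟩, rfl⟩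
  | Φ :: L, h => by
    obtain ⟨Θ, hΘ, h1⟩ := bj_auto B L fun Ψ hΨ => h Ψ (List.mem_cons_of_mem _ hΨ)
    obtain ⟨Ξ, hΞ, h2⟩ := join_auto (h Φ (List.mem_cons_self ..)) hΘ B (bj (List.replicate L.length B))
    refine ⟨Ξ, hΞ, ?_⟩
    rw [List.length_cons, List.replicate_succ]
    change Ξ (join B (bj (List.replicate L.length B))) = join (Φ B) (bj (L.map fun Φ => Φ B))
    rw [h2, h1]

/-- from the two weak forms to the conclusion of Q1 -/
theorem meets_of {K : Set ℕ → Prop} {W A B : Set ℕ} (hA : CE A) (hB : CE B) (hAW : Le A W) (hBW : Le B W)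
    (hW : Le W (join A B)) (hD : Dips K A) (hG : Gens K B) : Meets K W := by
  obtain ⟨m, hBH⟩ := hG
  have h1 : CE (bj (List.replicate (m + 1) B)) := bj_ce fun C hC => by
    rw [List.eq_of_mem_replicate hC]
    exact hB
  have h2 : Le (bj (List.replicate (m + 1) B)) W := bj_le fun C hC => by
    rw [List.eq_of_mem_replicate hC]
    exact hBW
  have h0 : Le B (bj (List.replicate (m + 1) B)) := le_join_left _ _
  refine ⟨join A (bj (List.replicate (m + 1) B)), join_ce hA h1, join_le hAW h2,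
    hW.trans (join_le (le_join_left _ _) (h0.trans (le_join_right _ _))), fun H hH => ?_⟩
  obtain ⟨Φ, hΦ, h3⟩ := hD.all H hH
  obtain ⟨L, hL, h4, h5⟩ := hBH H hH
  obtain ⟨Θ, hΘ, h6⟩ := bj_auto B L fun Ψ hΨ => (h4 Ψ hΨ).1
  rw [hL] at h6
  obtain ⟨Ξ, hΞ, h7⟩ := join_auto hΦ hΘ A (bj (List.replicate (m + 1) B))
  refine ⟨Ξ, hΞ, ?_, ?_⟩
  · rw [h7, h6]
    refine join_le h3 (bj_le fun C hC => ?_)
    obtain ⟨Ψ, hΨ, rfl⟩ := List.mem_map.1 hC
    exact (h4 Ψ hΨ).2
  · rw [h7, h6]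
    exact h5.trans (le_join_right _ _)

/-- the conclusion of Q1 passes to joins -/
theorem meets_join {K : Set ℕ → Prop} {W V X : Set ℕ} (hV : Meets K V) (hX : Meets K X) (hW : Le W (join V X))
    (h0 : Le V W) (h1 : Le X W) : Meets K W := by
  obtain ⟨A, hA, hAV, hVA, hAH⟩ := hV
  obtain ⟨B, hB, hBX, hXB, hBH⟩ := hX
  refine ⟨join A B, join_ce hA hB, join_le (hAV.trans h0) (hBX.trans h1), ?_, fun H hH => ?_⟩
  · exact hW.trans (join_le (hVA.trans (le_join_left A B)) (hXB.trans (le_join_right A B)))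
  · obtain ⟨Φ, hΦ, h2, h3⟩ := hAH H hH
    obtain ⟨Ψ, hΨ, h4, -⟩ := hBH H hH
    obtain ⟨Θ, hΘ, h5⟩ := join_auto hΦ hΨ A B
    refine ⟨Θ, hΘ, ?_, ?_⟩
    · rw [h5]
      exact join_le h2 h4
    · rw [h5]
      exact h3.trans (le_join_left _ _)

/-- the splitting theorem in the form used below -/
theorem split_avoid {W : Set ℕ} (hW : CE W) (hn : NonComp W) {U : ℕ → Set ℕ} (hU : CE {m | m.unpair.2 ∈ U m.unpair.1})
    (hUn : ∀ k, NonComp (U k)) : ∃ A B : Set ℕ, CE A ∧ CE B ∧ NonComp A ∧ NonComp B ∧ Le A W ∧ Le B W ∧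
      Le W (join A B) ∧ ¬ Le W A ∧ ¬ Le W B ∧ (∀ k, ¬ Le (U k) A) ∧ (∀ k, ¬ Le (U k) B) ∧ Low A ∧ Low B := by
  obtain ⟨eW, heW, heW1, -⟩ := exists_ent hW
  obtain ⟨eU, heU, heU1, -⟩ := exists_ent hU
  have ht : Primrec₂ fun (k t : ℕ) => if k = 0 then eW t else
      (eU t).bind fun m => if m.unpair.1 = k - 1 then some m.unpair.2 else none := by
    refine Primrec.ite (Primrec.eq.comp Primrec.fst (Primrec.const 0)) (heW.comp Primrec.snd) ?_
    refine Primrec.option_bind (heU.comp Primrec.snd) ?_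
    refine Primrec.ite (Primrec.eq.comp (Primrec.fst.comp (Primrec.unpair.comp Primrec.snd))
      (Primrec.pred.comp (Primrec.fst.comp Primrec.fst))) ?_ (Primrec.const none)
    exact Primrec.option_some.comp (Primrec.snd.comp (Primrec.unpair.comp Primrec.snd))
  have h0 : {n | ∃ t, (if (0 : ℕ) = 0 then eW t else
      (eU t).bind fun m => if m.unpair.1 = 0 - 1 then some m.unpair.2 else none) = some n} = W := by
    ext n
    rw [heW1]
    simp
  have hk : ∀ k : ℕ, {n | ∃ t, (if k + 1 = 0 then eW t else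
      (eU t).bind fun m => if m.unpair.1 = k + 1 - 1 then some m.unpair.2 else none) = some n} = U k := by
    intro k
    ext n
    have h1 := heU1 (Nat.pair k n)
    simp only [Set.mem_ofPred_eq, Nat.unpair_pair] at h1
    rw [h1]
    simp only [Set.mem_ofPred_eq, Nat.succ_ne_zero, if_false, Nat.add_sub_cancel, Option.bind_eq_some_iff]
    constructor
    · rintro ⟨t, m, h2, h3⟩
      refine ⟨t, ?_⟩
      split_ifs at h3 with h4
      rw [h2, ← h4, ← Option.some.inj h3, Nat.pair_unpair]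
    · rintro ⟨t, h2⟩
      exact ⟨t, _, h2, by simp⟩
  obtain ⟨A, B, hA, hB, hAB, -, hAW, hBW, h1, h2, h3, h4⟩ := sacks hW ht (by
    intro k
    cases k with
    | zero => rw [h0]; exact hn
    | succ k => rw [hk]; exact hUn k)
  have hWA : ¬ Le W A := by
    have := h1 0
    rwa [h0] at this
  have hWB : ¬ Le W B := by
    have := h2 0
    rwa [h0] at this
  refine ⟨A, B, hA, hB, ?_, ?_, hAW, hBW, union_le_join hAB, hWA, hWB, ?_, ?_, h3, h4⟩
  · intro h5
    exact hWB (union_le_of_comp hAB fun h6 => h6 h5)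
  · intro h5
    exact hWA (union_le_of_comp (hAB.trans (Set.union_comm A B)) fun h6 => h6 h5)
  · intro k
    have := h1 (k + 1)
    rwa [hk] at this
  · intro k
    have := h2 (k + 1)
    rwa [hk] at this

/-- the two weak forms follow from the conclusion of Q1 -/
theorem Meets.split {K : Set ℕ → Prop} {W : Set ℕ} (h : Meets K W) :
    ∃ A B, CE A ∧ CE B ∧ Le A W ∧ Le B W ∧ Le W (join A B) ∧ Dips K A ∧ Gens K B := by
  obtain ⟨A, hA, h1, h2, h3⟩ := h
  refine ⟨A, A, hA, hA, h1, h1, h2.trans (le_join_left A A), fun H hH _ => ?_, 0, fun H hH => ?_⟩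
  · obtain ⟨Φ, h4, h5, -⟩ := h3 H hH
    exact ⟨Φ, h4, h5⟩
  · obtain ⟨Φ, h4, h5, h6⟩ := h3 H hH
    refine ⟨[Φ], rfl, fun Ψ hΨ => ?_, h6.trans (le_join_left _ _)⟩
    rw [List.mem_singleton.1 hΨ]
    exact ⟨h4, h5⟩

/-- THE REDUCTION THEOREM -/
theorem main (K : Set ℕ → Prop) (P : Set ℕ → Prop) (hP : ∀ V W, CE V → CE W → Le V W → P W → P V)
    (U : ℕ → Set ℕ) (hU : CE {m | m.unpair.2 ∈ U m.unpair.1}) (hUn : ∀ k, NonComp (U k)) :
    (∀ W, CE W → NonComp W → P W → Meets K W) ↔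
      ∀ W, CE W → NonComp W → P W → Low W → (∀ k, ¬ Le (U k) W) →
        ∃ A B, CE A ∧ CE B ∧ Le A W ∧ Le B W ∧ Le W (join A B) ∧ Dips K A ∧ Gens K B := by
  constructor
  · intro h W hW hn hPW _ _
    exact (h W hW hn hPW).split
  · intro h
    have hlow : ∀ W, CE W → NonComp W → P W → Low W → (∀ k, ¬ Le (U k) W) → Meets K W := by
      intro W hW hn hPW hl hUW
      obtain ⟨A, B, h1, h2, h3, h4, h5, h6, h7⟩ := h W hW hn hPW hl hUW
      exact meets_of h1 h2 h3 h4 h5 h6 h7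
    intro W hW hn hPW
    obtain ⟨A, B, hA, hB, hAn, hBn, hAW, hBW, hWAB, -, -, hUA, hUB, hlA, hlB⟩ := split_avoid hW hn hU hUn
    exact meets_join (hlow A hA hAn (hP A W hA hW hAW hPW) hlA hUA)
      (hlow B hB hBn (hP B W hB hW hBW hPW) hlB hUB) hWAB hAW hBW

end Pool.Agent.Lib.H23R
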